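import Pool.Agent.H25.LS.Fg

/-!
# Elements of a subgroup of finite index which are independent of their conjugates
(MP_6b5a9a_nt)
-/

set_option autoImplicit false

open IntermediateField
open scoped WithZero

namespace Pool.Agent.H25.LS

/-- the valuation modulo `l` -/
noncomputable def valMod {M : Type*} [Field M] (w : Valuation M ℤᵐ⁰) (l : ℕ) :
    Mˣ →* Multiplicative (ZMod l) :=
  MonoidHom.mk' (fun x => Multiplicative.ofAdd ((WithZero.log (w (x : M)) : ℤ) : ZMod l))
    (by
      intro a b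
      have ha : w (a : M) ≠ 0 := (Valuation.ne_zero_iff w).2 a.ne_zero
      have hb : w (b : M) ≠ 0 := (Valuation.ne_zero_iff w).2 b.ne_zero
      rw [Units.val_mul, map_mul, WithZero.log_mul ha hb, Int.cast_add, ofAdd_add])

theorem valMod_apply {M : Type*} [Field M] (w : Valuation M ℤᵐ⁰) (l : ℕ) (x : Mˣ) :
    valMod w l x = Multiplicative.ofAdd ((WithZero.log (w (x : M)) : ℤ) : ZMod l) := rfl

/-- an element `g` of a subgroup of finite index and a character which is a generator at `g` and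
trivial at all the other conjugates of `g` -/
theorem exists_indep (F M : Type*) [Field F] [Field M] [Algebra F M] [FiniteDimensional F M]
    (hpl : HasPlaces F M) (l : ℕ) (H : Subgroup Mˣ) [hH : H.FiniteIndex] :
    ∃ g ∈ H, ∃ Ψ : Mˣ →* Multiplicative (ZMod l), Ψ g = Multiplicative.ofAdd 1 ∧
      ∀ δ : M ≃ₐ[F] M, δ ≠ 1 → Ψ (Units.map (δ : M →* M) g) = 1 := by
  classical
  obtain ⟨β, hβ, hE⟩ := hpl
  have hδβ : ∀ δ : M ≃ₐ[F] M, δ ≠ 1 → β - δ β ≠ 0 := by
    intro δ hδ h0
    apply hδ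
    have h1 : δ β = β := (sub_eq_zero.1 h0).symm
    have h2 : (δ : M →ₐ[F] M) = AlgHom.id F M := by
      have h3 : ∀ x ∈ F⟮β⟯, δ x = x := by
        intro x hx
        have hle : F⟮β⟯ ≤ fixedField (Subgroup.zpowers δ) := by
          rw [adjoin_simple_le_iff, mem_fixedField_iff]
          intro f hf
          have h4 : Subgroup.zpowers δ ≤ MulAction.stabilizer (M ≃ₐ[F] M) β := by
            rw [Subgroup.zpowers_le]; exact h1
          exact h4 hf
        exact (mem_fixedField_iff _ _).1 (hle hx) δ (Subgroup.mem_zpowers δ)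
      ext x
      exact h3 x (by rw [hβ]; exact mem_top)
    ext x
    exact AlgHom.congr_fun h2 x
  have : Fintype (M ≃ₐ[F] M) := Fintype.ofFinite _
  -- the finite set of elements to be units
  let ES : Finset F → Finset M := fun U =>
    ((Finset.univ.filter fun δ : M ≃ₐ[F] M => δ ≠ 1).image fun δ => β - δ β) ∪
      ((U ×ˢ (Finset.univ : Finset (M ≃ₐ[F] M))).image fun q => algebraMap F M q.1 - q.2 β).filter
        (· ≠ 0)
  have hES : ∀ U, ∀ e ∈ ES U, e ≠ 0 := by
    intro U e he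
    rcases Finset.mem_union.1 he with he | he
    · obtain ⟨δ, hδ, rfl⟩ := Finset.mem_image.1 he
      exact hδβ δ (Finset.mem_filter.1 hδ).2
    · exact (Finset.mem_filter.1 he).2
  choose nu nw hnw1 hnw2 using fun U => hE (ES U) (hES U)
  let Us : ℕ → Finset F := fun n => Nat.rec ∅ (fun _ U => insert (nu U) U) n
  have hUs : ∀ n, Us (n + 1) = insert (nu (Us n)) (Us n) := fun n => rfl
  have hmono : ∀ i j, i < j → nu (Us i) ∈ Us j := by
    intro i j hij
    induction j with
    | zero => omega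
    | succ j ih =>
      rw [hUs]
      rcases Nat.lt_succ_iff_lt_or_eq.1 hij with h | rfl
      · exact Finset.mem_insert_of_mem (ih h)
      · exact Finset.mem_insert_self _ _
  have hne : ∀ n, algebraMap F M (nu (Us n)) - β ≠ 0 := by
    intro n h0
    have h1 := hnw2 (Us n)
    rw [h0, map_zero] at h1
    exact WithZero.exp_ne_zero h1.symm
  let x : ℕ → Mˣ := fun n => Units.mk0 _ (hne n)
  have hfin : Finite (Mˣ ⧸ H) := Subgroup.finite_quotient_of_finiteIndex
  obtain ⟨i, j, hij, hq⟩ := Finite.exists_ne_map_eq_of_infinite fun n : ℕ => (x n : Mˣ ⧸ H)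
  -- we may assume `i < j`
  wlog hlt : i < j generalizing i j
  · exact this j i hij.symm hq.symm (lt_of_le_of_ne (not_lt.1 hlt) hij.symm)
  have hmem : (x j)⁻¹ * x i ∈ H := by
    rw [← QuotientGroup.eq]; exact hq.symm
  have hxδ : ∀ (n : ℕ) (δ : M ≃ₐ[F] M),
      ((Units.map (δ : M →* M) (x n) : Mˣ) : M) = algebraMap F M (nu (Us n)) - δ β := by
    intro n δ
    change δ (algebraMap F M (nu (Us n)) - β) = _
    rw [map_sub, AlgEquiv.commutes]
  have hmemES : ∀ δ : M ≃ₐ[F] M, algebraMap F M (nu (Us i)) - δ β ∈ ES (Us j) := by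
    intro δ
    refine Finset.mem_union_right _ (Finset.mem_filter.2 ⟨Finset.mem_image.2
      ⟨(nu (Us i), δ), Finset.mem_product.2 ⟨hmono i j hlt, Finset.mem_univ _⟩, rfl⟩, ?_⟩)
    rw [← hxδ]
    exact Units.ne_zero _
  set w := nw (Us j) with hw
  have hwi : ∀ δ : M ≃ₐ[F] M, w (algebraMap F M (nu (Us i)) - δ β) = 1 := fun δ =>
    hnw1 (Us j) _ (hmemES δ)
  have hwj : w (algebraMap F M (nu (Us j)) - β) = WithZero.exp (-1 : ℤ) := hnw2 (Us j)
  have hwδ : ∀ δ : M ≃ₐ[F] M, δ ≠ 1 → w (β - δ β) = 1 := fun δ hδ =>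
    hnw1 (Us j) _ (Finset.mem_union_left _ (Finset.mem_image.2
      ⟨δ, Finset.mem_filter.2 ⟨Finset.mem_univ _, hδ⟩, rfl⟩))
  have hwjδ : ∀ δ : M ≃ₐ[F] M, δ ≠ 1 → w (algebraMap F M (nu (Us j)) - δ β) = 1 := by
    intro δ hδ
    have h1 : algebraMap F M (nu (Us j)) - δ β =
        (algebraMap F M (nu (Us j)) - β) + (β - δ β) := by ring
    have h2 : w (algebraMap F M (nu (Us j)) - β) < w (β - δ β) := by
      rw [hwδ δ hδ, hwj, ← WithZero.exp_zero, WithZero.exp_lt_exp]
      norm_num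
    rw [h1, Valuation.map_add_eq_of_lt_right w h2, hwδ δ hδ]
  refine ⟨(x j)⁻¹ * x i, hmem, valMod w l, ?_, ?_⟩
  · rw [map_mul, map_inv, valMod_apply, valMod_apply]
    have e1 : w ((x j : Mˣ) : M) = WithZero.exp (-1 : ℤ) := hwj
    have e2 : w ((x i : Mˣ) : M) = 1 := hwi 1
    rw [e1, e2, WithZero.log_exp, WithZero.log_one]
    simp
  · intro δ hδ
    rw [map_mul, map_inv, map_mul, map_inv, valMod_apply, valMod_apply, hxδ, hxδ, hwi δ, hwjδ δ hδ,
      WithZero.log_one]
    simp

end Pool.Agent.H25.LS
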