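import Pool.Agent.H25.LS.Fg

/-!
# Nontrivial valuations of algebraic extensions (MP_6b5a9a_nt)
-/

set_option autoImplicit false

open scoped WithZero

namespace Pool.Agent.H25.LS

/-- in an algebraic extension the values of nonzero elements are not smaller than all values of the
base field -/
theorem exists_small (F Ω : Type*) [Field F] [Field Ω] [Algebra F Ω] [Algebra.IsAlgebraic F Ω]
    {Γ₀ : Type*} [LinearOrderedCommGroupWithZero Γ₀] (v : Valuation Ω Γ₀)
    (hv : ∃ t : Ω, t ≠ 0 ∧ v t < 1) (c : Ω) (hc : c ≠ 0) :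
    ∃ s : F, s ≠ 0 ∧ v (algebraMap F Ω s) < v c := by
  classical
  set vF : Valuation F Γ₀ := v.comap (algebraMap F Ω) with hvF
  have key : ∀ e : Ω, e ≠ 0 → ∃ s : F, s ≠ 0 ∧ v (algebraMap F Ω s) ≤ v e := by
    intro e he
    let O := vF.valuationSubring
    let _ : Algebra O Ω := ((algebraMap F Ω).comp (algebraMap O F)).toAlgebra
    have htower : IsScalarTower O F Ω := IsScalarTower.of_algebraMap_eq fun _ => rfl
    have h1 : IsAlgebraic F e⁻¹ := Algebra.IsAlgebraic.isAlgebraic _
    have h2 : IsAlgebraic O e⁻¹ := (IsFractionRing.isAlgebraic_iff O F Ω).2 h1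
    have hinj : Function.Injective (algebraMap O Ω) :=
      (algebraMap F Ω).injective.comp Subtype.val_injective
    have : FaithfulSMul O Ω := (faithfulSMul_iff_algebraMap_injective O Ω).2 hinj
    obtain ⟨s, hs, hint⟩ := h2.exists_integral_multiple
    have hs0 : (s : F) ≠ 0 := fun h => hs (Subtype.ext h)
    have h3 : IsIntegral v.integer (s • e⁻¹) := by
      obtain ⟨q, hq1, hq2⟩ := hint
      let j : O →+* v.integer :=
        { toFun := fun a => ⟨algebraMap F Ω a, a.2⟩
          map_one' := Subtype.ext (map_one _)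
          map_mul' := fun a b => Subtype.ext (map_mul _ _ _)
          map_zero' := Subtype.ext (map_zero _)
          map_add' := fun a b => Subtype.ext (map_add _ _ _) }
      refine ⟨q.map j, hq1.map j, ?_⟩
      rw [Polynomial.eval₂_map]
      exact hq2
    have h4 := ((Valuation.integer.integers v).isIntegral_iff_v_le_one).1 h3
    have h5 : s • e⁻¹ = algebraMap F Ω s * e⁻¹ := Algebra.smul_def _ _
    rw [h5, map_mul, map_inv₀] at h4
    refine ⟨s, hs0, ?_⟩
    have hve : v e ≠ 0 := (Valuation.ne_zero_iff v).2 he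
    have h6 := mul_le_mul_left h4 (v e)
    rw [mul_assoc, inv_mul_cancel₀ hve, mul_one, one_mul] at h6
    exact h6
  obtain ⟨t, ht0, ht⟩ := hv
  obtain ⟨s₁, hs₁, h1⟩ := key t ht0
  obtain ⟨s₂, hs₂, h2⟩ := key c hc
  refine ⟨s₁ * s₂, mul_ne_zero hs₁ hs₂, ?_⟩
  rw [map_mul, map_mul]
  have hpos : 0 < v (algebraMap F Ω s₂) := by
    rw [zero_lt_iff, Valuation.ne_zero_iff]
    exact (map_ne_zero _).2 hs₂
  calc v (algebraMap F Ω s₁) * v (algebraMap F Ω s₂) < 1 * v (algebraMap F Ω s₂) :=
        mul_lt_mul_of_pos_right (h1.trans_lt ht) hpos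
    _ = v (algebraMap F Ω s₂) := one_mul _
    _ ≤ v c := h2

/-- extensions of infinite finitely generated fields have nontrivial valuations -/
theorem exists_nontrivial_valuation (F Ω : Type*) [Field F] [Infinite F]
    (hfg : ∃ S : Finset F, Subfield.closure (S : Set F) = ⊤) [Field Ω] [Algebra F Ω] :
    ∃ B : ValuationSubring Ω, ∃ t : Ω, t ≠ 0 ∧ B.valuation t < 1 := by
  obtain ⟨β, _, hE⟩ := hasPlaces F F hfg
  obtain ⟨u, w, _, hw⟩ := hE ∅ (by simp)
  set t₀ : F := algebraMap F F u - β with ht₀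
  have ht0 : t₀ ≠ 0 := by
    intro h0
    rw [h0, map_zero] at hw
    exact WithZero.exp_ne_zero hw.symm
  have hlt : w t₀ < 1 := by
    rw [hw, ← WithZero.exp_zero, WithZero.exp_lt_exp]
    norm_num
  set A : Subring Ω := w.valuationSubring.toSubring.map (algebraMap F Ω) with hA
  have hmem : algebraMap F Ω t₀ ∈ A := ⟨t₀, hlt.le, rfl⟩
  obtain ⟨B, _, hB2⟩ := Ideal.image_subset_nonunits_valuationSubring
    (Ideal.span {(⟨algebraMap F Ω t₀, hmem⟩ : A)}) (by
      intro htop
      rw [Ideal.span_singleton_eq_top] at htop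
      obtain ⟨⟨z, hz⟩, hz1⟩ := isUnit_iff_exists_inv.1 htop
      obtain ⟨z₀, hz₀, rfl⟩ := hz
      have h1 : algebraMap F Ω (t₀ * z₀) = algebraMap F Ω 1 := by
        rw [map_mul, map_one]
        exact congrArg Subtype.val hz1
      have h2 := (algebraMap F Ω).injective h1
      have h3 := congrArg w h2
      rw [map_mul, map_one] at h3
      have hz₀' : w z₀ ≤ 1 := hz₀
      have h4 : w t₀ * w z₀ < 1 := mul_lt_one_of_lt_of_le hlt hz₀'
      exact h4.ne h3)
  refine ⟨B, algebraMap F Ω t₀, (map_ne_zero _).2 ht0, ?_⟩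
  rw [← ValuationSubring.mem_nonunits_iff]
  exact hB2 ⟨⟨algebraMap F Ω t₀, hmem⟩, Ideal.mem_span_singleton_self _, rfl⟩

end Pool.Agent.H25.LS
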