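import Mathlib

/-!
# The trace of a point (MP_6b5a9a_nt)
-/

set_option autoImplicit false

namespace Pool.Agent.H25.LS

/-- the sum over the cosets of a subgroup which fixes `a` is invariant -/
theorem exists_trace {G A : Type*} [Group G] [AddCommGroup A] [DistribMulAction G A]
    (K : Subgroup G) [Fintype (G ⧸ K)] (a : A) (ha : ∀ k ∈ K, k • a = a) :
    ∃ T : G ⧸ K → A, (∀ γ : G, T γ = γ • a) ∧ ∀ γ : G, γ • (∑ q, T q) = ∑ q, T q := by
  classical
  let T : G ⧸ K → A := fun q => q.out • a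
  have hT : ∀ γ : G, T γ = γ • a := by
    intro γ
    obtain ⟨k, hk⟩ := QuotientGroup.mk_out_eq_mul K γ
    change ((γ : G ⧸ K).out) • a = γ • a
    rw [hk, mul_smul, ha k k.2]
  refine ⟨T, hT, fun γ => ?_⟩
  rw [Finset.smul_sum]
  refine Fintype.sum_equiv (MulAction.toPerm γ) _ _ fun q => ?_
  obtain ⟨δ, rfl⟩ := QuotientGroup.mk_surjective q
  rw [hT]
  change γ • δ • a = T ((γ * δ : G) : G ⧸ K)
  rw [hT, mul_smul]

end Pool.Agent.H25.LS
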