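import Pool.Agent.H25.LS.Point
import Pool.Agent.H25.LS.Trace
import Pool.Agent.H23.Rank

/-!
# Infinite rank over the fixed field of finitely many automorphisms: the abstract theorem
(MP_6b5a9a_nt)
-/

set_option autoImplicit false

open Polynomial IntermediateField TensorProduct

namespace Pool.Agent.H25.LS

/-- a finite Galois extension which contains a given finite extension -/
theorem exists_galois (F Ω : Type*) [Field F] [Field Ω] [Algebra F Ω] [IsGalois F Ω]
    (E : IntermediateField F Ω) [FiniteDimensional F E] :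
    ∃ M : IntermediateField F Ω, E ≤ M ∧ FiniteDimensional F M ∧ IsGalois F M := by
  refine ⟨IntermediateField.normalClosure F E Ω, IntermediateField.le_normalClosure E,
    inferInstance, ?_⟩
  exact ⟨⟩

/-- The abstract theorem: `A` is a discrete module over the absolute Galois group of `F`, and `ψ`
is an equivariant map to `A` from the points of the curve `y ^ l = f x`. If the points
`ψ (x, y)` and `ψ (x, ζ₀ y)` have no equal multiples for `x` near a root of `f`, then the group of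
elements of `A` which are fixed by a finitely generated subgroup `Γ` has infinite rank. -/
theorem abstract_infinite (F Ω : Type*) [Field F] [Infinite F]
    (hfg : ∃ S : Finset F, Subfield.closure (S : Set F) = ⊤) [Field Ω] [Algebra F Ω]
    [IsSepClosed Ω] [IsGalois F Ω] (l : ℕ) (hl : 1 < l) (hlF : (l : F) ≠ 0)
    (L : IntermediateField F Ω) (hL : FiniteDimensional F L) (f : L[X])
    (hsp : (f.map (algebraMap L Ω)).Splits) (x₀ : Ω)
    (hx₀ : ((f.map (algebraMap L Ω)).rootMultiplicity x₀).Coprime l)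
    (A : Type*) [AddCommGroup A] [DistribMulAction (Ω ≃ₐ[F] Ω) A]
    (hdisc : ∀ a : A, ∃ E : IntermediateField F Ω, FiniteDimensional F E ∧
      ∀ γ ∈ E.fixingSubgroup, γ • a = a)
    (ψ : Ω → Ω → A)
    (hψ : ∀ γ ∈ L.fixingSubgroup, ∀ x y : Ω, y ^ l = (f.map (algebraMap L Ω)).eval x →
      ψ (γ x) (γ y) = γ • ψ x y)
    {Γ₀ : Type*} [LinearOrderedCommGroupWithZero Γ₀] (v : Valuation Ω Γ₀)
    (hv : ∃ t : Ω, t ≠ 0 ∧ v t < 1)
    (ζ₀ : Ω) (hζ₀ : IsPrimitiveRoot ζ₀ l)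
    (hNT : ∃ c : Ω, c ≠ 0 ∧ ∀ x y : Ω, y ^ l = (f.map (algebraMap L Ω)).eval x → x ≠ x₀ →
      v (x - x₀) < v c → ∀ N : ℕ, N ≠ 0 → N • ψ x y ≠ N • ψ x (ζ₀ * y))
    (Γ : Subgroup (Ω ≃ₐ[F] Ω)) (hΓ : Γ.FG) :
    ¬ FiniteDimensional ℚ (ℚ ⊗[ℤ] FixedPoints.addSubgroup Γ A) := by
  classical
  intro hfin
  have hlΩ : (l : Ω) ≠ 0 := by
    have h1 : (l : Ω) = algebraMap F Ω l := (map_natCast _ _).symm
    rw [h1]
    exact (_root_.map_ne_zero _).2 hlF
  have hf0 : f.map (algebraMap L Ω) ≠ 0 := by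
    intro h0
    rw [h0, rootMultiplicity_zero, Nat.coprime_zero_left] at hx₀
    exact hl.ne' hx₀
  -- the finite set of elements
  obtain ⟨T, hT⟩ := Pool.Agent.H23.exists_finset_of_finite _ hfin
  choose E hE hEfix using hdisc
  -- the field `M`
  set E₁ : IntermediateField F Ω := L ⊔ ((⨆ t ∈ T, E (t : A)) ⊔
    adjoin F ((insert x₀ (insert ζ₀ (f.map (algebraMap L Ω)).roots.toFinset) : Finset Ω) : Set Ω))
    with hE₁
  have hE₁fin : FiniteDimensional F E₁ := by
    have h1 : FiniteDimensional F (⨆ t ∈ T, E (t : A) : IntermediateField F Ω) :=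
      IntermediateField.finiteDimensional_iSup_of_finset' fun t _ => hE t
    have h2 : FiniteDimensional F (adjoin F ((insert x₀ (insert ζ₀
        (f.map (algebraMap L Ω)).roots.toFinset) : Finset Ω) : Set Ω)) :=
      finiteDimensional_adjoin fun x _ => Algebra.IsIntegral.isIntegral x
    infer_instance
  obtain ⟨M, hEM, hMfin, hMgal⟩ := exists_galois F Ω E₁
  have hLM : L ≤ M := le_sup_left.trans hEM
  have hTM : ∀ t ∈ T, E (t : A) ≤ M := fun t ht =>
    ((le_iSup₂_of_le t ht le_rfl).trans (le_sup_left.trans le_sup_right)).trans hEM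
  have hmemM : ∀ z ∈ (insert x₀ (insert ζ₀ (f.map (algebraMap L Ω)).roots.toFinset) : Finset Ω),
      z ∈ M := fun z hz =>
    hEM ((le_sup_right.trans le_sup_right : adjoin F _ ≤ E₁) (subset_adjoin F _ hz))
  -- the polynomial over `M`
  let i : L →+* M := (IntermediateField.inclusion hLM).toRingHom
  have hi : (algebraMap M Ω).comp i = algebraMap L Ω := RingHom.ext fun _ => rfl
  set fM : M[X] := f.map i with hfM
  have hfMΩ : fM.map (algebraMap M Ω) = f.map (algebraMap L Ω) := by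
    rw [hfM, Polynomial.map_map, hi]
  have hfM0 : fM ≠ 0 := by
    intro h0
    apply hf0
    rw [← hfMΩ, h0, Polynomial.map_zero]
  have hspM : fM.Splits := by
    refine Splits.of_splits_map (algebraMap M Ω) (by rw [hfMΩ]; exact hsp) fun a ha => ?_
    rw [hfMΩ] at ha
    exact ⟨⟨a, hmemM a (Finset.mem_insert_of_mem (Finset.mem_insert_of_mem
      (Multiset.mem_toFinset.2 ha)))⟩, rfl⟩
  set x₀M : M := ⟨x₀, hmemM x₀ (Finset.mem_insert_self _ _)⟩ with hx₀M
  have hmult : (fM.rootMultiplicity x₀M).Coprime l := by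
    rw [eq_rootMultiplicity_map (f := algebraMap M Ω) (algebraMap M Ω).injective x₀M, hfMΩ]
    exact hx₀
  set ζ : M := ⟨ζ₀, hmemM ζ₀ (Finset.mem_insert_of_mem (Finset.mem_insert_self _ _))⟩ with hζdef
  have hζ : IsPrimitiveRoot ζ l := by
    refine IsPrimitiveRoot.of_map_of_injective (f := algebraMap M Ω) ?_ (algebraMap M Ω).injective
    exact hζ₀
  obtain ⟨c, hc0, hc⟩ := hNT
  obtain ⟨x, y, τ, hxx₀, hxv, hy, hyΓ, hτy, hτΓ⟩ := exists_point F Ω hfg l hl hlΩ M ζ hζ Γ hΓ fM hfM0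
    hspM x₀M hmult v hv c hc0
  have hyΩ : y ^ l = (f.map (algebraMap L Ω)).eval (x : Ω) := by
    rw [hy, ← hfMΩ, eval_map_algebraMap]
    exact (aeval_algebraMap_apply Ω x fM).symm
  -- the point
  set a : A := ψ x y with ha
  have hL_of_M : ∀ γ : Ω ≃ₐ[F] Ω, (∀ m : M, γ m = m) → γ ∈ L.fixingSubgroup := by
    intro γ hγ
    rw [IntermediateField.mem_fixingSubgroup_iff]
    intro z hz
    exact hγ ⟨z, hLM hz⟩
  have hmove : ∀ γ : Ω ≃ₐ[F] Ω, (∀ m : M, γ m = m) → γ • a = ψ x (γ y) := by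
    intro γ hγ
    rw [ha, ← hψ γ (hL_of_M γ hγ) x y hyΩ, hγ x]
  -- the trace
  let res : (Ω ≃ₐ[F] Ω) →* (M ≃ₐ[F] M) := AlgEquiv.restrictNormalHom M
  have hres : ∀ (γ : Ω ≃ₐ[F] Ω) (m : M), ((res γ m : M) : Ω) = γ m := fun γ m =>
    AlgEquiv.restrictNormalHom_apply M γ m
  have hstab : ∀ (γ : Ω ≃ₐ[F] Ω) (m : M), γ m ∈ M := fun γ m => by
    rw [← hres]; exact (res γ m).2
  set K : Subgroup Γ := (res.comp Γ.subtype).ker with hK
  have hKmem : ∀ γ : Γ, γ ∈ K ↔ ∀ m : M, (γ : Ω ≃ₐ[F] Ω) m = m := by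
    intro γ
    rw [hK, MonoidHom.mem_ker]
    constructor
    · intro h m
      rw [← hres]
      have h' : res (γ : Ω ≃ₐ[F] Ω) = 1 := h
      rw [h']; rfl
    · intro h
      change res (γ : Ω ≃ₐ[F] Ω) = 1
      ext m
      rw [hres, h]; rfl
  have hKfin : Finite (Γ ⧸ K) :=
    Finite.of_equiv _ (QuotientGroup.quotientKerEquivRange (res.comp Γ.subtype)).symm.toEquiv
  have : Fintype (Γ ⧸ K) := Fintype.ofFinite _
  have haK : ∀ k ∈ K, k • a = a := by
    intro k hk
    have h1 := (hKmem k).1 hk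
    change (k : Ω ≃ₐ[F] Ω) • a = a
    rw [hmove _ h1, hyΓ _ k.2 h1]
  obtain ⟨Tr, hTr, hTrinv⟩ := exists_trace K a haK
  -- the multiple of the trace
  obtain ⟨n, hn0, hn⟩ := hT ⟨∑ q, Tr q, fun γ => hTrinv γ⟩
  -- the automorphism
  set τ' : Ω ≃ₐ[F] Ω := τ.restrictScalars F with hτ'
  have hτ'M : ∀ m : M, τ' m = m := fun m => τ.commutes m
  have hfixT : ∀ b ∈ AddSubgroup.closure (T : Set (FixedPoints.addSubgroup Γ A)),
      τ' • (b : A) = b := by
    intro b hb
    induction hb using AddSubgroup.closure_induction with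
    | mem t ht =>
      apply hEfix (t : A) τ'
      rw [IntermediateField.mem_fixingSubgroup_iff]
      intro z hz
      exact hτ'M ⟨z, hTM t ht hz⟩
    | zero => exact smul_zero _
    | add b₁ b₂ _ _ h₁ h₂ =>
      change τ' • ((b₁ : A) + (b₂ : A)) = (b₁ : A) + (b₂ : A)
      rw [smul_add, h₁, h₂]
    | neg b _ h =>
      change τ' • (-(b : A)) = -(b : A)
      rw [smul_neg, h]
  have hconj : ∀ γ ∈ Γ, (∃ m : M, γ m ≠ m) → τ' • γ • a = γ • a := by
    intro γ hγ hγM
    have h1 : τ' * γ = γ * (γ⁻¹ * τ' * γ) := by group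
    have h2 : ∀ m : M, (γ⁻¹ * τ' * γ) m = m := by
      intro m
      rw [AlgEquiv.mul_apply, AlgEquiv.mul_apply, hτ'M ⟨γ m, hstab γ m⟩, ← AlgEquiv.mul_apply,
        inv_mul_cancel]
      rfl
    have h3 : (γ⁻¹ * τ' * γ) y = y := by
      rw [AlgEquiv.mul_apply, AlgEquiv.mul_apply]
      have h4 : τ' (γ y) = γ y := hτΓ γ hγ hγM
      rw [h4, ← AlgEquiv.mul_apply, inv_mul_cancel]
      rfl
    rw [← mul_smul, h1, mul_smul, hmove _ h2, h3]
  have hTrτ : τ' • (∑ q, Tr q) = (∑ q, Tr q) - a + ψ x (τ y) := by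
    have h1 : ∀ q : Γ ⧸ K, q ≠ ((1 : Γ) : Γ ⧸ K) → τ' • Tr q = Tr q := by
      intro q hq
      obtain ⟨γ, rfl⟩ := QuotientGroup.mk_surjective q
      rw [hTr]
      apply hconj (γ : Ω ≃ₐ[F] Ω) γ.2
      by_contra hcon
      push Not at hcon
      apply hq
      have h2 : γ ∈ K := (hKmem γ).2 hcon
      exact (QuotientGroup.eq.2 (by simpa using h2)).symm
    have h2 : Tr ((1 : Γ) : Γ ⧸ K) = a := by rw [hTr, one_smul]
    have h3 : τ' • Tr ((1 : Γ) : Γ ⧸ K) = ψ x (τ y) := by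
      rw [h2, hmove τ' hτ'M]
      rfl
    rw [Finset.smul_sum, ← Finset.add_sum_erase Finset.univ (fun q => τ' • Tr q)
      (Finset.mem_univ ((1 : Γ) : Γ ⧸ K)), ← Finset.add_sum_erase Finset.univ Tr
      (Finset.mem_univ ((1 : Γ) : Γ ⧸ K)), h3, h2, Finset.sum_congr rfl fun q hq =>
      h1 q (Finset.ne_of_mem_erase hq)]
    abel
  have hnTr : n • (τ' • (∑ q, Tr q)) = n • (∑ q, Tr q) := by
    have h1 := hfixT _ hn
    have h2 : ((n • (⟨∑ q, Tr q, fun γ => hTrinv γ⟩ : FixedPoints.addSubgroup Γ A) :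
      FixedPoints.addSubgroup Γ A) : A) = n • ∑ q, Tr q := rfl
    rw [h2, smul_comm] at h1
    exact h1
  have hfinal : n • a = n • ψ x (τ y) := by
    rw [hTrτ, smul_add, smul_sub] at hnTr
    have h1 : n • (∑ q, Tr q) - n • a + n • ψ x (τ y) - n • (∑ q, Tr q) = 0 := by
      rw [hnTr, sub_self]
    have h2 : n • ψ x (τ y) - n • a = 0 := by
      rw [← h1]; abel
    exact (sub_eq_zero.1 h2).symm
  refine hc x y hyΩ (fun h => hxx₀ (Subtype.ext h)) hxv n hn0 ?_
  rw [hfinal, hτy]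

end Pool.Agent.H25.LS
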