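import Mathlib

/-!
# Simple roots modulo primes of a principal ideal domain (MP_6b5a9a_nt)
-/

set_option autoImplicit false

open Polynomial

namespace Pool.Agent.H25.LS

/-- every nonconstant polynomial takes a value which is not zero and not a unit -/
def NonUnitValues (B : Type*) [CommRing B] : Prop :=
  ∀ Q : B[X], 0 < Q.natDegree → ∃ v : B, Q.eval v ≠ 0 ∧ ¬ IsUnit (Q.eval v)

theorem nonUnitValues_int : NonUnitValues ℤ := by
  intro Q hQ
  by_contra hcon
  push Not at hcon
  -- all values are `0, 1, -1`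
  have h3 : ∀ v : ℤ, (Q * (Q - 1) * (Q + 1)).eval v = 0 := by
    intro v
    rw [eval_mul, eval_mul, eval_sub, eval_add, eval_one]
    by_cases h0 : Q.eval v = 0
    · rw [h0]; ring
    · rcases Int.isUnit_iff.1 (hcon v h0) with h | h <;> rw [h] <;> ring
  have h4 : Q * (Q - 1) * (Q + 1) = 0 := by
    apply Polynomial.funext
    intro v
    rw [h3 v, eval_zero]
  have hne : ∀ c : ℤ, Q + C c ≠ 0 := by
    intro c h
    have h1 : Q.natDegree = 0 := by
      rw [eq_neg_of_add_eq_zero_left h, natDegree_neg, natDegree_C]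
    omega
  rcases mul_eq_zero.1 h4 with h | h
  · rcases mul_eq_zero.1 h with h | h
    · exact hne 0 (by rw [h]; simp)
    · refine hne (-1) ?_
      rw [← h]; simp [sub_eq_add_neg]
  · refine hne 1 ?_
    rw [← h]; simp

theorem nonUnitValues_poly (k : Type*) [Field k] : NonUnitValues k[X] := by
  classical
  intro Q hQ
  set d := Q.natDegree with hd
  set N := (∑ i ∈ Finset.range (d + 1), (Q.coeff i).natDegree) + 1 with hN
  have hlt : ∀ i, i ≤ d → (Q.coeff i).natDegree < N := by
    intro i hi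
    rw [hN]
    exact Nat.lt_succ_of_le (Finset.single_le_sum (f := fun i => (Q.coeff i).natDegree)
      (fun _ _ => Nat.zero_le _) (Finset.mem_range.2 (Nat.lt_succ_of_le hi)))
  have hQd : Q.coeff d ≠ 0 := by
    rw [hd]
    have : Q ≠ 0 := by
      rintro rfl
      simp [hd] at hQ
    exact leadingCoeff_ne_zero.2 this
  have hsum : Q.eval (X ^ N : k[X]) = ∑ i ∈ Finset.range (d + 1), Q.coeff i * X ^ (N * i) := by
    rw [eval_eq_sum_range]
    refine Finset.sum_congr rfl fun i _ => ?_
    rw [← pow_mul]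
  have hdeg : (Q.eval (X ^ N : k[X])).coeff ((Q.coeff d).natDegree + N * d) ≠ 0 := by
    rw [hsum, finsetSum_coeff, Finset.sum_range_succ, Finset.sum_eq_zero, zero_add,
      coeff_mul_X_pow]
    · exact leadingCoeff_ne_zero.2 hQd
    · intro i hi
      rw [Finset.mem_range] at hi
      apply coeff_eq_zero_of_natDegree_lt
      calc (Q.coeff i * X ^ (N * i)).natDegree ≤ (Q.coeff i).natDegree + N * i := by
            refine (natDegree_mul_le).trans ?_
            rw [natDegree_X_pow]
        _ < N + N * i := by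
            have := hlt i hi.le
            omega
        _ = N * (i + 1) := by ring
        _ ≤ N * d := Nat.mul_le_mul_left _ hi
        _ ≤ _ := Nat.le_add_left _ _
  refine ⟨X ^ N, ?_, ?_⟩
  · intro h
    rw [h, coeff_zero] at hdeg
    exact hdeg rfl
  · intro h
    rw [Polynomial.isUnit_iff] at h
    obtain ⟨c, _, hc⟩ := h
    rw [← hc, coeff_C, if_neg] at hdeg
    · exact hdeg rfl
    · have : 0 < N * d := Nat.mul_pos (Nat.succ_pos _) hQ
      omega

section

variable {B : Type*} [CommRing B] [IsDomain B] [UniqueFactorizationMonoid B] [Infinite B]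

/-- a point `u` which is a simple root of `G` modulo a prime `p` which does not divide `b₀` -/
theorem exists_simple_root (hP : NonUnitValues B) (G : B[X]) (hG : 0 < G.natDegree) (b₀ : B)
    (hb₀ : b₀ ≠ 0) (r : B[X]) (hr : G ∣ r * derivative G - C b₀) :
    ∃ u p : B, Prime p ∧ ¬ p ∣ b₀ ∧ p ∣ G.eval u ∧ ¬ p ^ 2 ∣ G.eval u ∧
      ¬ p ∣ (derivative G).eval u := by
  classical
  have hG0 : G ≠ 0 := by
    rintro rfl
    simp at hG
  obtain ⟨u₀, hu₀⟩ : ∃ u₀ : B, G.eval u₀ ≠ 0 := by
    by_contra hcon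
    push Not at hcon
    exact hG0 (Polynomial.funext fun x => by rw [hcon x, eval_zero])
  set g₀ := G.eval u₀ with hg₀
  have hgb : g₀ * b₀ ≠ 0 := mul_ne_zero hu₀ hb₀
  -- the Taylor polynomial
  set T : B[X] := G.comp (C u₀ + C (g₀ * b₀) * X) with hT
  have hTdeg : T.natDegree = G.natDegree := by
    rw [hT, natDegree_comp]
    have : (C u₀ + C (g₀ * b₀) * X : B[X]).natDegree = 1 := by
      rw [add_comm]
      exact natDegree_linear hgb
    rw [this, mul_one]
  obtain ⟨H, hH⟩ : (X - C u₀) ∣ G - C g₀ := by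
    rw [dvd_iff_isRoot]; simp [hg₀]
  have hHG : G = C g₀ + (X - C u₀) * H := by rw [← hH]; ring
  set Q : B[X] := 1 + C b₀ * X * H.comp (C u₀ + C (g₀ * b₀) * X) with hQ
  have hTQ : T = C g₀ * Q := by
    have h1 : T = (C g₀ + (X - C u₀) * H).comp (C u₀ + C (g₀ * b₀) * X) := by
      rw [hT]; exact congrArg (fun q => q.comp (C u₀ + C (g₀ * b₀) * X)) hHG
    rw [h1, hQ]
    simp only [add_comp, mul_comp, sub_comp, C_comp, X_comp, C_mul]
    ring
  have hQdeg : 0 < Q.natDegree := by
    have h1 : T.natDegree = Q.natDegree := by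
      rw [hTQ, natDegree_C_mul hu₀]
    rw [← h1, hTdeg]
    exact hG
  obtain ⟨v, hv0, hv1⟩ := hP Q hQdeg
  obtain ⟨p, hp, hpv⟩ := WfDvdMonoid.exists_irreducible_factor hv1 hv0
  have hprime : Prime p := UniqueFactorizationMonoid.irreducible_iff_prime.1 hp
  have hpb : ¬ p ∣ b₀ := by
    intro h
    have h1 : Q.eval v = 1 + b₀ * (v * (H.comp (C u₀ + C (g₀ * b₀) * X)).eval v) := by
      rw [hQ, eval_add, eval_mul, eval_mul, eval_C, eval_X, eval_one, mul_assoc]
    have h2 : p ∣ 1 := by
      rw [h1] at hpv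
      exact (dvd_add_left (h.mul_right _)).1 hpv
    exact hprime.not_isUnit (isUnit_of_dvd_one h2)
  set u := u₀ + g₀ * b₀ * v with hu
  have hGu : G.eval u = g₀ * Q.eval v := by
    have h1 := congrArg (eval v) hTQ
    rw [hT, eval_comp, eval_add, eval_mul, eval_C, eval_C, eval_X, eval_mul, eval_C] at h1
    exact h1
  have hpG : p ∣ G.eval u := by rw [hGu]; exact hpv.mul_left _
  -- the derivative
  have hder : ∀ z : B, p ∣ G.eval z → ¬ p ∣ (derivative G).eval z := by
    intro z hz h
    obtain ⟨s, hs⟩ := hr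
    have h1 := congrArg (eval z) hs
    rw [eval_sub, eval_mul, eval_C, eval_mul] at h1
    apply hpb
    have h2 : b₀ = eval z r * eval z (derivative G) - eval z G * eval z s := by
      rw [← h1]; ring
    rw [h2]
    exact dvd_sub (h.mul_left _) (hz.mul_right _)
  by_cases hsq : p ^ 2 ∣ G.eval u
  · -- replace `u` by `u + p`
    obtain ⟨c, hc⟩ := Polynomial.binomExpansion G u p
    rw [sq] at hc
    have hpG' : p ∣ G.eval (u + p) := by
      rw [hc]
      refine dvd_add (dvd_add hpG (Dvd.intro_left _ rfl)) ?_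
      exact ⟨c * p, by ring⟩
    refine ⟨u + p, p, hprime, hpb, hpG', ?_, hder _ hpG'⟩
    intro h
    rw [hc] at h
    have h1 : p ^ 2 ∣ (derivative G).eval u * p := by
      have h2 : p ^ 2 ∣ c * (p * p) := by rw [← sq]; exact Dvd.intro_left _ rfl
      have h3 := (dvd_add_left h2).1 h
      exact (dvd_add_right hsq).1 h3
    rw [sq, mul_comm ((derivative G).eval u)] at h1
    exact hder u hpG ((mul_dvd_mul_iff_left hprime.ne_zero).1 h1)
  · exact ⟨u, p, hprime, hpb, hpG, hsq, hder u hpG⟩

end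

end Pool.Agent.H25.LS
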