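import Pool.Agent.H25.LS.Place
import Pool.Agent.H25.LS.Euc

/-!
# Places of degree one: the statement over a principal ideal domain (MP_6b5a9a_nt)
-/

set_option autoImplicit false

open Polynomial IntermediateField
open scoped WithZero

namespace Pool.Agent.H25.LS

section

variable {B M : Type*} [CommRing B] [Field M] [Algebra B M]

theorem exists_common_denominator [IsDomain B] (β : M)
    (hfrac : ∀ x : M, ∃ b : B, b ≠ 0 ∧ ∃ h : B[X], algebraMap B M b * x = aeval β h)
    (E : Finset M) :
    ∃ b₀ : B, b₀ ≠ 0 ∧ ∀ e ∈ E, ∃ h : B[X], algebraMap B M b₀ * e = aeval β h := by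
  classical
  induction E using Finset.induction_on with
  | empty => exact ⟨1, one_ne_zero, by simp⟩
  | insert a s _ ih =>
    obtain ⟨b₁, hb₁, h1⟩ := ih
    obtain ⟨b₂, hb₂, h, hh⟩ := hfrac a
    refine ⟨b₁ * b₂, mul_ne_zero hb₁ hb₂, ?_⟩
    intro e he
    rcases Finset.mem_insert.1 he with rfl | he
    · refine ⟨C b₁ * h, ?_⟩
      rw [map_mul, map_mul (aeval β), aeval_C, mul_assoc, hh]
    · obtain ⟨h', hh'⟩ := h1 e he
      refine ⟨C b₂ * h', ?_⟩
      rw [map_mul, map_mul (aeval β), aeval_C, mul_comm (algebraMap B M b₁), mul_assoc, hh']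

end

section

variable (B k M : Type*) [CommRing B] [IsDomain B] [IsPrincipalIdealRing B] [Infinite B]
  [Field k] [Algebra B k] [IsFractionRing B k] [Field M] [Algebra B M] [Algebra k M]
  [IsScalarTower B k M] [FiniteDimensional k M] [Algebra.IsSeparable k M]

/-- a primitive element `β` such that for every finite set `E` of nonzero elements there is a
place, of degree one over the base, where `u - β` is a uniformizer and `E` consists of units -/
theorem exists_places_base (hP : NonUnitValues B) :
    ∃ β : M, k⟮β⟯ = ⊤ ∧ ∀ E : Finset M, (∀ e ∈ E, e ≠ 0) →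
      ∃ (u : B) (w : Valuation M ℤᵐ⁰), (∀ e ∈ E, w e = 1) ∧
        w (algebraMap B M u - β) = WithZero.exp (-1 : ℤ) := by
  classical
  have hinj : Function.Injective (algebraMap B M) := by
    rw [IsScalarTower.algebraMap_eq B k M]
    exact (algebraMap k M).injective.comp (IsFractionRing.injective B k)
  have htf : Module.IsTorsionFree B M := by
    have : FaithfulSMul B M := (faithfulSMul_iff_algebraMap_injective B M).2 hinj
    infer_instance
  obtain ⟨α, hα⟩ := Field.exists_primitive_element k M
  -- an integral multiple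
  have halg : IsAlgebraic B α := by
    have h1 : IsAlgebraic k α := Algebra.IsAlgebraic.isAlgebraic α
    exact (IsFractionRing.isAlgebraic_iff B k M).2 h1
  obtain ⟨b, hb, hint⟩ := halg.exists_integral_multiple
  set β : M := b • α with hβ
  have hbM : algebraMap B M b ≠ 0 := fun h0 => hb (hinj (h0.trans (map_zero _).symm))
  have htop : k⟮β⟯ = ⊤ := by
    rw [eq_top_iff, ← hα, adjoin_simple_le_iff]
    have h1 : β ∈ k⟮β⟯ := mem_adjoin_simple_self k β
    have h2 : algebraMap B M b ∈ k⟮β⟯ := by
      rw [IsScalarTower.algebraMap_apply B k M]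
      exact IntermediateField.algebraMap_mem _ _
    have h3 : α = (algebraMap B M b)⁻¹ * β := by
      rw [hβ, Algebra.smul_def, inv_mul_cancel_left₀ hbM]
    rw [h3]
    exact mul_mem (inv_mem h2) h1
  refine ⟨β, htop, fun E hE => ?_⟩
  set G := minpoly B β with hGdef
  have hGβ : aeval β G = 0 := minpoly.aeval B β
  have hmin : ∀ h : B[X], aeval β h = 0 → G ∣ h := fun h hh =>
    minpoly.isIntegrallyClosed_dvd hint hh
  have hGk : minpoly k β = G.map (algebraMap B k) :=
    minpoly.isIntegrallyClosed_eq_field_fractions k M hint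
  have hGdeg : 0 < G.natDegree := minpoly.natDegree_pos hint
  have hsep : (G.map (algebraMap B k)).Separable := by
    rw [← hGk]; exact Algebra.IsSeparable.isSeparable k β
  have hder : aeval β (derivative G) ≠ 0 := by
    have h1 : aeval β (derivative (G.map (algebraMap B k))) ≠ 0 := by
      apply hsep.aeval_derivative_ne_zero
      rw [← hGk]; exact minpoly.aeval k β
    rwa [derivative_map, aeval_map_algebraMap] at h1
  have hfrac : ∀ x : M, ∃ b : B, b ≠ 0 ∧ ∃ h : B[X], algebraMap B M b * x = aeval β h := by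
    intro x
    have hx : x ∈ k⟮β⟯ := by rw [htop]; exact mem_top
    have hβint : IsIntegral k β := Algebra.IsIntegral.isIntegral β
    have hx' : x ∈ Algebra.adjoin k {β} := by
      rw [← IntermediateField.adjoin_simple_toSubalgebra_of_isAlgebraic hβint.isAlgebraic]
      exact hx
    rw [Algebra.adjoin_singleton_eq_range_aeval] at hx'
    obtain ⟨q, hq⟩ := hx'
    have hq' : aeval β q = x := hq
    obtain ⟨c, hcm, hc⟩ := IsLocalization.integerNormalization_spec (nonZeroDivisors B) q
    refine ⟨c, nonZeroDivisors.ne_zero hcm,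
      IsLocalization.integerNormalization (nonZeroDivisors B) q, ?_⟩
    rw [← aeval_map_algebraMap k, hc, ← algebraMap_smul k c q, map_smul, hq',
      algebraMap_smul, Algebra.smul_def]
  -- the finite set
  set E' : Finset M := insert (aeval β (derivative G)) E with hE'
  obtain ⟨b₀, hb₀, hE₀⟩ := exists_common_denominator β hfrac (E' ∪ E'.image (·⁻¹))
  have hE'0 : ∀ e ∈ E', e ≠ 0 := by
    intro e he
    rcases Finset.mem_insert.1 he with rfl | he
    · exact hder
    · exact hE e he
  have hpair : ∀ e ∈ E', ∃ h h' : B[X], algebraMap B M b₀ * e = aeval β h ∧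
      algebraMap B M b₀ * e⁻¹ = aeval β h' := by
    intro e he
    obtain ⟨h, hh⟩ := hE₀ e (Finset.mem_union_left _ he)
    obtain ⟨h', hh'⟩ := hE₀ e⁻¹ (Finset.mem_union_right _ (Finset.mem_image_of_mem _ he))
    exact ⟨h, h', hh, hh'⟩
  obtain ⟨_, r, _, hr⟩ := hpair _ (Finset.mem_insert_self _ _)
  have hrG : G ∣ r * derivative G - C b₀ := by
    apply hmin
    rw [map_sub, map_mul, aeval_C, ← hr, mul_assoc, inv_mul_cancel₀ hder, mul_one, sub_self]
  obtain ⟨u, p, hp, hpb, hu1, hu2, hu3⟩ := exists_simple_root hP G hGdeg b₀ hb₀ r hrG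
  obtain ⟨w, _, hw2, hw3⟩ := exists_place B M hinj β G hGβ hmin hfrac u p hp hu1 hu2 hu3
  refine ⟨u, w, fun e he => ?_, hw3⟩
  obtain ⟨h, h', hh, hh'⟩ := hpair e (Finset.mem_insert_of_mem he)
  have hwb : w (algebraMap B M b₀) = 1 := by
    have := hw2 (C b₀) (by rw [eval_C]; exact hpb)
    rwa [aeval_C] at this
  have hph : ¬ p ∣ h.eval u := by
    intro hd
    have h1 : G ∣ h * h' - C (b₀ * b₀) := by
      apply hmin
      rw [map_sub, map_mul, ← hh, ← hh', aeval_C, map_mul]
      have := hE e he
      field_simp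
      ring
    obtain ⟨s, hs⟩ := h1
    have h2 := congrArg (eval u) hs
    rw [eval_sub, eval_mul, eval_C, eval_mul] at h2
    have h3 : p ∣ b₀ * b₀ := by
      have h4 : b₀ * b₀ = eval u h * eval u h' - eval u G * eval u s := by
        rw [← h2]; ring
      rw [h4]
      exact dvd_sub (hd.mul_right _) (hu1.mul_right _)
    rcases hp.dvd_or_dvd h3 with h5 | h5 <;> exact hpb h5
  have h6 := hw2 h hph
  rw [← hh, map_mul, hwb, one_mul] at h6
  exact h6

end

end Pool.Agent.H25.LS
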