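import Mathlib

/-!
# The character of the multiplicative group given by an automorphism (MP_6b5a9a_nt)
-/

set_option autoImplicit false

namespace Pool.Agent.H25.LS

/-- an automorphism `τ` over `M` gives a character of `Mˣ` of order dividing `l`, and `τ` fixes the
`l`-th roots of all elements of its kernel -/
theorem exists_char (M Ω : Type*) [Field M] [Field Ω] [Algebra M Ω] [IsSepClosed Ω] (l : ℕ)
    [hl : NeZero l] (ζ : M) (hζ : IsPrimitiveRoot ζ l) (hl0 : (l : Ω) ≠ 0) (τ : Ω ≃ₐ[M] Ω) :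
    ∃ ρ : Mˣ →* Multiplicative (ZMod l), ∀ d : Mˣ, ρ d = 1 → ∀ u : Ω,
      u ^ l = algebraMap M Ω d → τ u = u := by
  classical
  have hl1 : l ≠ 0 := hl.out
  have : NeZero (l : Ω) := ⟨hl0⟩
  set ξ : Ω := algebraMap M Ω ζ with hξ
  have hξp : IsPrimitiveRoot ξ l := hζ.map_of_injective (algebraMap M Ω).injective
  have hpow : ∀ a a' : ZMod l, ξ ^ (a + a').val = ξ ^ a.val * ξ ^ a'.val := by
    intro a a'
    rw [ZMod.val_add, ← pow_add]
    exact (pow_eq_pow_mod _ hξp.pow_eq_one).symm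
  have hinj : ∀ a a' : ZMod l, ξ ^ a.val = ξ ^ a'.val → a = a' := by
    intro a a' h
    exact ZMod.val_injective l (hξp.pow_inj (ZMod.val_lt a) (ZMod.val_lt a') h)
  have hτξ : ∀ k : ℕ, τ (ξ ^ k) = ξ ^ k := by
    intro k
    rw [hξ, ← map_pow, AlgEquiv.commutes]
  -- roots of the same element
  have hroots : ∀ (u u' : Ω), u' ≠ 0 → u ^ l = u' ^ l → ∃ k : ℕ, u = ξ ^ k * u' := by
    intro u u' hu' h
    have h1 : (u / u') ^ l = 1 := by
      rw [div_pow, h, div_self (pow_ne_zero _ hu')]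
    obtain ⟨i, _, hi'⟩ := hξp.eq_pow_of_pow_eq_one h1
    exact ⟨i, by rw [hi', div_mul_cancel₀ _ hu']⟩
  have hex : ∀ d : Mˣ, ∃ u : Ω, u ^ l = algebraMap M Ω d := fun d =>
    IsSepClosed.exists_pow_nat_eq _ l
  choose r hr using hex
  have hr0 : ∀ d, r d ≠ 0 := by
    intro d h0
    have h1 := hr d
    rw [h0, zero_pow hl1] at h1
    exact d.ne_zero ((algebraMap M Ω).injective (h1.symm.trans (map_zero _).symm))
  have hexp : ∀ d : Mˣ, ∃ k : ZMod l, τ (r d) = ξ ^ k.val * r d := by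
    intro d
    have h1 : (τ (r d) / r d) ^ l = 1 := by
      rw [div_pow, ← map_pow, hr, AlgEquiv.commutes, div_self]
      rw [← hr]
      exact pow_ne_zero _ (hr0 d)
    obtain ⟨i, hi, hi'⟩ := hξp.eq_pow_of_pow_eq_one h1
    refine ⟨(i : ZMod l), ?_⟩
    rw [ZMod.val_natCast_of_lt hi, hi', div_mul_cancel₀ _ (hr0 d)]
  choose κ hκ using hexp
  refine ⟨MonoidHom.mk' (fun d => Multiplicative.ofAdd (κ d)) ?_, ?_⟩
  · intro a b
    rw [← ofAdd_add]
    congr 1
    apply hinj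
    apply mul_right_cancel₀ (hr0 (a * b))
    rw [← hκ (a * b)]
    obtain ⟨k, hk⟩ := hroots (r (a * b)) (r a * r b) (mul_ne_zero (hr0 a) (hr0 b)) (by
      rw [mul_pow, hr, hr, hr, Units.val_mul, map_mul])
    rw [hk, map_mul, hτξ, map_mul, hκ a, hκ b, hpow]
    ring
  · intro d hd u hu
    have hk0 : κ d = 0 := Multiplicative.ofAdd.injective hd
    have h1 : τ (r d) = r d := by rw [hκ d, hk0]; simp
    obtain ⟨k, hk⟩ := hroots u (r d) (hr0 d) (by rw [hu, hr])
    rw [hk, map_mul, hτξ, h1]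

end Pool.Agent.H25.LS
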