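import Mathlib

/-!
# A discrete valuation from a prime ideal which is locally principal (MP_6b5a9a_nt)
-/

set_option autoImplicit false

open scoped WithZero

namespace Pool.Agent.H25.LS

/-- a prime ideal of a Noetherian domain which is locally generated by one element `π` gives a
discrete valuation of the field of fractions with uniformizer `π` -/
theorem exists_valuation (A K : Type*) [CommRing A] [IsDomain A] [IsNoetherianRing A] [Field K]
    [Algebra A K] [IsFractionRing A K] (P : Ideal A) [hP : P.IsPrime] (p : A) (hp : p ∈ P)
    (hp0 : p ≠ 0) (hloc : ∀ a ∈ P, ∃ s : A, s ∉ P ∧ p ∣ s * a) :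
    ∃ w : Valuation K ℤᵐ⁰, (∀ a : A, a ∉ P → w (algebraMap A K a) = 1) ∧
      (∀ a : A, w (algebraMap A K a) ≤ 1) ∧ w (algebraMap A K p) = WithZero.exp (-1 : ℤ) := by
  classical
  set O := Localization.AtPrime P with hO
  have hle : P.primeCompl ≤ nonZeroDivisors A := P.primeCompl_le_nonZeroDivisors
  have hdom : IsDomain O := IsLocalization.isDomain_localization hle
  have hnoeth : IsNoetherianRing O := IsLocalization.isNoetherianRing P.primeCompl O inferInstance
  -- the algebra structure on K
  have hunit : ∀ y : P.primeCompl, IsUnit (algebraMap A K y) := by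
    intro y
    rw [isUnit_iff_ne_zero]
    intro h
    have h1 := (IsFractionRing.injective A K) (h.trans (map_zero _).symm)
    exact y.2 (h1 ▸ P.zero_mem)
  let _ : Algebra O K := (IsLocalization.lift hunit : O →+* K).toAlgebra
  have htower : IsScalarTower A O K := IsScalarTower.of_algebraMap_eq fun a => by
    change _ = (IsLocalization.lift hunit : O →+* K) _
    rw [IsLocalization.lift_eq]
  have hfrac : IsFractionRing O K :=
    IsFractionRing.isFractionRing_of_isDomain_of_isLocalization P.primeCompl O K
  -- the maximal ideal
  have hmax : IsLocalRing.maximalIdeal O = Ideal.span {algebraMap A O p} := by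
    apply le_antisymm
    · intro z hz
      obtain ⟨a, s, rfl⟩ := IsLocalization.exists_mk'_eq P.primeCompl z
      have ha : a ∈ P := by
        by_contra hna
        apply (IsLocalRing.mem_maximalIdeal _).1 hz
        have : IsLocalization.mk' O a s * IsLocalization.mk' O (s : A) (⟨a, hna⟩ : P.primeCompl) = 1 := by
          rw [← IsLocalization.mk'_mul]
          rw [show (a * (s : A)) = ((s * ⟨a, hna⟩ : P.primeCompl) : A) from by
            simp [mul_comm]]
          exact IsLocalization.mk'_self' O
        exact IsUnit.of_mul_eq_one _ this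
      obtain ⟨t, ht, c, hc⟩ := hloc a ha
      rw [Ideal.mem_span_singleton]
      refine ⟨IsLocalization.mk' O c (⟨t, ht⟩ * s), ?_⟩
      rw [← IsLocalization.mk'_one (M := P.primeCompl) O p, ← IsLocalization.mk'_mul, one_mul, ← hc]
      rw [IsLocalization.mk'_eq_iff_eq]
      congr 1
      simp only [Submonoid.coe_mul]
      ring
    · rw [Ideal.span_le, Set.singleton_subset_iff, SetLike.mem_coe,
        IsLocalization.AtPrime.to_map_mem_maximal_iff O P p]
      exact hp
  have hp0' : algebraMap A O p ≠ 0 := by
    intro h
    exact hp0 ((IsLocalization.injective O hle) (h.trans (map_zero _).symm))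
  have hnf : ¬ IsField O := by
    rw [IsLocalRing.isField_iff_maximalIdeal_eq, hmax, Ideal.span_singleton_eq_bot]
    exact hp0'
  have hdvr : IsDiscreteValuationRing O := by
    have h := (IsDiscreteValuationRing.TFAE O hnf).out 0 4
    rw [h]
    exact ⟨⟨algebraMap A O p, hmax⟩⟩
  set v := IsDiscreteValuationRing.maximalIdeal O with hv
  refine ⟨v.valuation K, ?_, ?_, ?_⟩
  · intro a ha
    rw [IsScalarTower.algebraMap_apply A O K, v.valuation_of_algebraMap,
      IsDedekindDomain.HeightOneSpectrum.intValuation_eq_one_iff]
    change algebraMap A O a ∉ IsLocalRing.maximalIdeal O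
    rw [IsLocalization.AtPrime.to_map_mem_maximal_iff O P a]
    exact ha
  · intro a
    rw [IsScalarTower.algebraMap_apply A O K]
    exact v.valuation_le_one _
  · rw [IsScalarTower.algebraMap_apply A O K, v.valuation_of_algebraMap]
    exact v.intValuation_singleton hp0' hmax

end Pool.Agent.H25.LS
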