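import Pool.Agent.H25.LS.Base

/-!
# Places of degree one: finitely generated fields (MP_6b5a9a_nt)
-/

set_option autoImplicit false

open Polynomial IntermediateField
open scoped WithZero

namespace Pool.Agent.H25.LS

/-- a primitive element of `M` over `F` with many places of degree one -/
def HasPlaces (F M : Type*) [Field F] [Field M] [Algebra F M] : Prop :=
  ∃ β : M, F⟮β⟯ = ⊤ ∧ ∀ E : Finset M, (∀ e ∈ E, e ≠ 0) →
    ∃ (u : F) (w : Valuation M ℤᵐ⁰), (∀ e ∈ E, w e = 1) ∧
      w (algebraMap F M u - β) = WithZero.exp (-1 : ℤ)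

/-- transfer of finiteness and separability to a field with a larger image -/
theorem transfer (K₁ k M : Type*) [Field K₁] [Field k] [Field M] [Algebra K₁ M] [Algebra k M]
    (h : ∀ a : K₁, ∃ b : k, algebraMap k M b = algebraMap K₁ M a) [FiniteDimensional K₁ M]
    [Algebra.IsSeparable K₁ M] : FiniteDimensional k M ∧ Algebra.IsSeparable k M := by
  choose j hj using h
  have hinj := (algebraMap k M).injective
  let jr : K₁ →+* k :=
    { toFun := j
      map_one' := hinj (by rw [hj, map_one, map_one])
      map_mul' := fun a b => hinj (by rw [hj, map_mul, map_mul, hj, hj])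
      map_zero' := hinj (by rw [hj, map_zero, map_zero])
      map_add' := fun a b => hinj (by rw [hj, map_add, map_add, hj, hj]) }
  let _ : Algebra K₁ k := jr.toAlgebra
  have : IsScalarTower K₁ k M := IsScalarTower.of_algebraMap_eq fun x => (hj x).symm
  exact ⟨FiniteDimensional.right K₁ k M, Algebra.isSeparable_tower_top_of_isSeparable K₁ k M⟩

theorem hasPlaces_tower (B k F M : Type*) [CommRing B] [IsDomain B] [IsPrincipalIdealRing B]
    [Infinite B] [Field k] [Algebra B k] [IsFractionRing B k] [Field F] [Algebra k F]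
    [FiniteDimensional k F] [Algebra.IsSeparable k F] [Field M] [Algebra F M]
    [FiniteDimensional F M] [Algebra.IsSeparable F M] (hP : NonUnitValues B) :
    HasPlaces F M := by
  let _ : Algebra k M := ((algebraMap F M).comp (algebraMap k F)).toAlgebra
  let _ : Algebra B M := ((algebraMap k M).comp (algebraMap B k)).toAlgebra
  have h1 : IsScalarTower k F M := IsScalarTower.of_algebraMap_eq fun _ => rfl
  have h2 : IsScalarTower B k M := IsScalarTower.of_algebraMap_eq fun _ => rfl
  have h3 : FiniteDimensional k M := FiniteDimensional.trans k F M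
  have h4 : Algebra.IsSeparable k M := Algebra.IsSeparable.trans k F M
  obtain ⟨β, hβ, hE⟩ := exists_places_base B k M hP
  refine ⟨β, ?_, fun E hE0 => ?_⟩
  · rw [eq_top_iff]
    intro x _
    have hx : x ∈ k⟮β⟯ := by rw [hβ]; exact mem_top
    have hle : k⟮β⟯ ≤ (F⟮β⟯).restrictScalars k := by
      rw [adjoin_simple_le_iff]
      exact mem_adjoin_simple_self F β
    exact hle hx
  · obtain ⟨u, w, hw1, hw2⟩ := hE E hE0
    exact ⟨algebraMap k F (algebraMap B k u), w, hw1, hw2⟩

theorem hasPlaces_transc (k₁ F M : Type*) [Field k₁] [Field F] [Algebra k₁ F] (s : Finset F)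
    (hs : AlgebraicIndependent k₁ ((↑) : s → F)) (t : F) (ht : t ∈ s)
    [FiniteDimensional (adjoin k₁ (s : Set F)) F] [Algebra.IsSeparable (adjoin k₁ (s : Set F)) F]
    [Field M] [Algebra F M] [FiniteDimensional F M] [Algebra.IsSeparable F M] :
    HasPlaces F M := by
  classical
  set k₀ : IntermediateField k₁ F := adjoin k₁ ((s.erase t : Finset F) : Set F) with hk₀
  have htr : Transcendental k₀ t := by
    rw [hk₀, transcendental_adjoin_iff]
    have h1 := hs.transcendental_adjoin (s := {i : s | (i : F) ≠ t}) (i := ⟨t, ht⟩) (by simp)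
    have h2 : ((↑) : s → F) '' {i : s | (i : F) ≠ t} = ((s.erase t : Finset F) : Set F) := by
      ext x
      simp only [Set.mem_image, Set.mem_ofPred_eq, Subtype.exists, Finset.coe_erase, Set.mem_sdiff,
        SetLike.mem_coe, Set.mem_singleton_iff, exists_and_left, exists_prop, exists_eq_right_right]
      tauto
    rw [h2] at h1
    exact h1
  have hinj : Function.Injective (aeval t : k₀[X] →ₐ[k₀] F) := transcendental_iff_injective.1 htr
  have hinj' : Function.Injective ((aeval t : k₀[X] →ₐ[k₀] F) : k₀[X] →+* F) := hinj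
  let _ : Algebra (FractionRing k₀[X]) F := (IsFractionRing.lift hinj').toAlgebra
  have hmap : ∀ q : k₀[X], algebraMap (FractionRing k₀[X]) F
      (algebraMap k₀[X] (FractionRing k₀[X]) q) = aeval t q := fun q =>
    IsFractionRing.lift_algebraMap hinj' q
  have hrange : ∀ a : adjoin k₁ (s : Set F), ∃ b : FractionRing k₀[X],
      algebraMap (FractionRing k₀[X]) F b = algebraMap (adjoin k₁ (s : Set F)) F a := by
    set R : Subfield F := (algebraMap (FractionRing k₀[X]) F).fieldRange with hR
    have hk₁ : ∀ c : k₁, algebraMap k₁ F c ∈ R := fun c =>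
      ⟨algebraMap k₀[X] _ (C (algebraMap k₁ k₀ c)), by rw [hmap, aeval_C]; rfl⟩
    have hle : adjoin k₁ (s : Set F) ≤ R.toIntermediateField hk₁ := by
      rw [adjoin_le_iff]
      intro x hx
      by_cases hxt : x = t
      · subst hxt
        exact ⟨algebraMap k₀[X] _ X, by rw [hmap, aeval_X]⟩
      · have hx0 : x ∈ k₀ := subset_adjoin _ _ (Finset.mem_coe.2 (Finset.mem_erase.2 ⟨hxt, hx⟩))
        exact ⟨algebraMap k₀[X] _ (C ⟨x, hx0⟩), by rw [hmap, aeval_C]; rfl⟩
    intro a
    exact hle a.2
  obtain ⟨h1, h2⟩ := transfer (adjoin k₁ (s : Set F)) (FractionRing k₀[X]) F hrange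
  exact hasPlaces_tower k₀[X] (FractionRing k₀[X]) F M (nonUnitValues_poly k₀)

theorem hasPlaces_of_perfect (k₁ F M : Type*) [Field k₁] [PerfectField k₁] [Field F] [Algebra k₁ F]
    [Algebra.EssFiniteType k₁ F] [Field M] [Algebra F M] [FiniteDimensional F M]
    [Algebra.IsSeparable F M]
    (h0 : FiniteDimensional k₁ F → HasPlaces F M) : HasPlaces F M := by
  obtain ⟨s, hs, hsep⟩ := exists_isTranscendenceBasis_and_isSeparable_of_perfectField k₁ F
  have hfin : FiniteDimensional (adjoin k₁ (s : Set F)) F := by
    have h1 : Algebra.EssFiniteType (adjoin k₁ (s : Set F)) F :=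
      Algebra.EssFiniteType.of_comp k₁ _ F
    obtain ⟨S, hS⟩ := IntermediateField.fg_top (adjoin k₁ (s : Set F)) F
    have h2 : FiniteDimensional (adjoin k₁ (s : Set F))
        (adjoin (adjoin k₁ (s : Set F)) (S : Set F)) :=
      finiteDimensional_adjoin fun x _ => Algebra.IsIntegral.isIntegral x
    rw [hS] at h2
    exact Module.Finite.equiv (topEquiv (F := adjoin k₁ (s : Set F)) (E := F)).toLinearEquiv
  rcases s.eq_empty_or_nonempty with rfl | ⟨t, ht⟩
  · apply h0
    rw [Finset.coe_empty, adjoin_empty] at hfin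
    exact FiniteDimensional.trans k₁ (⊥ : IntermediateField k₁ F) F
  · exact hasPlaces_transc k₁ F M s hs.1 t ht

/-- every finite separable extension of an infinite finitely generated field has places of degree
one in the sense of `HasPlaces` -/
theorem hasPlaces (F M : Type*) [Field F] [Infinite F]
    (hfg : ∃ S : Finset F, Subfield.closure (S : Set F) = ⊤) [Field M] [Algebra F M]
    [FiniteDimensional F M] [Algebra.IsSeparable F M] : HasPlaces F M := by
  obtain ⟨S, hS⟩ := hfg
  have hess : ∀ (k₁ : Type) [Field k₁] [Algebra k₁ F], Algebra.EssFiniteType k₁ F := by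
    intro k₁ _ _
    rw [← IntermediateField.fg_top_iff]
    refine ⟨S, ?_⟩
    rw [eq_top_iff]
    intro x _
    have hx : x ∈ Subfield.closure (S : Set F) := by rw [hS]; exact Subfield.mem_top x
    have hle : Subfield.closure (S : Set F) ≤ (adjoin k₁ (S : Set F)).toSubfield :=
      Subfield.closure_le.2 (subset_adjoin _ _)
    exact hle hx
  rcases CharP.exists' F with h0 | ⟨p, hp, hpF⟩
  · let _ : Algebra ℚ F := DivisionRing.toRatAlgebra
    have := hess ℚ
    refine hasPlaces_of_perfect ℚ F M fun h => ?_
    exact hasPlaces_tower ℤ ℚ F M nonUnitValues_int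
  · let _ : Algebra (ZMod p) F := ZMod.algebra F p
    have := hess (ZMod p)
    refine hasPlaces_of_perfect (ZMod p) F M fun h => ?_
    have : Finite F := Module.finite_of_finite (ZMod p)
    exact absurd (inferInstance : Infinite F) (not_infinite_iff_finite.2 this)

end Pool.Agent.H25.LS
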