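import Mathlib

/-!
# Irreducibility of `y ^ l - f` (MP_6b5a9a_nt)
-/

set_option autoImplicit false

open Polynomial

namespace Pool.Agent.H25.LS

/-- `y ^ l - f` is irreducible if `f` has a root whose multiplicity is prime to `l` -/
theorem irred (k : Type*) [Field k] (f : k[X]) (l : ℕ) (hl : 1 < l) (x₀ : k)
    (hx₀ : (f.rootMultiplicity x₀).Coprime l) : Irreducible ((X : k[X][X]) ^ l - C f) := by
  classical
  have hl0 : l ≠ 0 := by omega
  have hf0 : f ≠ 0 := by
    rintro rfl
    rw [rootMultiplicity_zero, Nat.coprime_zero_left] at hx₀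
    omega
  set g : k[X][X] := X ^ l - C f with hg
  have hgm : g.Monic := monic_X_pow_sub_C f hl0
  let K := FractionRing k[X]
  rw [hgm.irreducible_iff_irreducible_map_fraction_map (K := K)]
  set gK : K[X] := g.map (algebraMap k[X] K) with hgK
  have hgK' : gK = X ^ l - C (algebraMap k[X] K f) := by
    rw [hgK, hg, Polynomial.map_sub, Polynomial.map_pow, map_X, map_C]
  have hdeg : gK.natDegree = l := by rw [hgK', natDegree_X_pow_sub_C]
  have hmK : gK.Monic := hgm.map _
  obtain ⟨P, hP, hPg⟩ := Polynomial.exists_irreducible_of_natDegree_pos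
    (f := gK) (by rw [hdeg]; omega)
  have : Fact (Irreducible P) := ⟨hP⟩
  set y : AdjoinRoot P := AdjoinRoot.root P with hy
  have hyl : y ^ l = algebraMap K (AdjoinRoot P) (algebraMap k[X] K f) := by
    have h1 : aeval y gK = 0 := by
      obtain ⟨Q, hQ⟩ := hPg
      rw [hQ, map_mul, hy, AdjoinRoot.aeval_eq, AdjoinRoot.mk_self, zero_mul]
    rw [hgK', map_sub, map_pow, aeval_X, aeval_C, sub_eq_zero] at h1
    exact h1
  have hfin : FiniteDimensional K (AdjoinRoot P) := (AdjoinRoot.powerBasis hP.ne_zero).finite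
  have hrank : Module.finrank K (AdjoinRoot P) = P.natDegree := by
    rw [(AdjoinRoot.powerBasis hP.ne_zero).finrank, AdjoinRoot.powerBasis_dim]
  set c : K := Algebra.norm K y with hc
  have hcl : c ^ l = algebraMap k[X] K (f ^ P.natDegree) := by
    rw [hc, ← map_pow, hyl, Algebra.norm_algebraMap, hrank, map_pow]
  have hcint : IsIntegral k[X] c := by
    apply IsIntegral.of_pow (n := l) (by omega)
    rw [hcl]
    exact isIntegral_algebraMap
  obtain ⟨a, ha⟩ := IsIntegrallyClosed.isIntegral_iff.1 hcint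
  have hal : a ^ l = f ^ P.natDegree := by
    apply IsFractionRing.injective k[X] K
    rw [map_pow, ha, hcl]
  have hmult : l * a.rootMultiplicity x₀ = P.natDegree * f.rootMultiplicity x₀ := by
    have h1 := congrArg (fun q : k[X] => q.roots.count x₀) hal
    simp only [roots_pow, Multiset.count_nsmul, count_roots] at h1
    exact h1
  have hdvd : l ∣ P.natDegree := by
    have h1 : l ∣ P.natDegree * f.rootMultiplicity x₀ := Dvd.intro _ hmult
    exact (Nat.Coprime.dvd_of_dvd_mul_right hx₀.symm h1)
  have hPpos : 0 < P.natDegree := hP.natDegree_pos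
  have hle : l ≤ P.natDegree := Nat.le_of_dvd hPpos hdvd
  obtain ⟨Q, hQ⟩ := hPg
  have hQ0 : Q ≠ 0 := by
    rintro rfl
    rw [mul_zero] at hQ
    exact hmK.ne_zero hQ
  have hQdeg : Q.natDegree = 0 := by
    have h1 := congrArg natDegree hQ
    rw [natDegree_mul hP.ne_zero hQ0, hdeg] at h1
    omega
  have hQu : IsUnit Q := by
    rw [isUnit_iff_degree_eq_zero, degree_eq_natDegree hQ0, hQdeg]
    rfl
  rw [hQ]
  exact (irreducible_mul_isUnit hQu).2 hP

end Pool.Agent.H25.LS
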