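import Pool.Agent.H25.LS.Sep

/-!
# Kummer theory: an automorphism with prescribed action on radicals (MP_6b5a9a_nt)
-/

set_option autoImplicit false

namespace Pool.Agent.H25.LS

/-- an automorphism over `M` whose action on the `n`-th root `y` of `b` is given by a character of
`Mˣ`, and which fixes `n`-th roots of elements of the kernel of the character -/
theorem exists_kummer (M Ω : Type*) [Field M] [Field Ω] [Algebra M Ω] [IsGalois M Ω] (n : ℕ)
    [hn : NeZero n] (ζ : M) (hζ : IsPrimitiveRoot ζ n) {ι : Type*} [Finite ι] (y : Ω) (b : Mˣ)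
    (hy : y ^ n = algebraMap M Ω b) (z : ι → Ω) (c : ι → Mˣ)
    (hz : ∀ i, z i ^ n = algebraMap M Ω (c i)) (Ψ : Mˣ →* Multiplicative (ZMod n))
    (hc : ∀ i, Ψ (c i) = 1) :
    ∃ τ : Ω ≃ₐ[M] Ω, τ y = algebraMap M Ω ζ ^ (Multiplicative.toAdd (Ψ b)).val * y ∧
      ∀ i, τ (z i) = z i := by
  classical
  have : Fintype ι := Fintype.ofFinite ι
  have hl0 : n ≠ 0 := hn.out
  set ξ : Ω := algebraMap M Ω ζ with hξ
  have hξp : IsPrimitiveRoot ξ n := hζ.map_of_injective (algebraMap M Ω).injective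
  have hne : ∀ (u : Ω) (d : Mˣ), u ^ n = algebraMap M Ω d → u ≠ 0 := by
    rintro u d hu rfl
    rw [zero_pow hl0] at hu
    exact d.ne_zero ((algebraMap M Ω).injective (hu.symm.trans (map_zero _).symm))
  -- exponents
  have hexp : ∀ (u : Ω) (d : Mˣ), u ^ n = algebraMap M Ω d → ∀ τ : Ω ≃ₐ[M] Ω,
      ∃ k : ZMod n, τ u = ξ ^ k.val * u := by
    intro u d hu τ
    have hu0 := hne u d hu
    have h1 : (τ u / u) ^ n = 1 := by
      rw [div_pow, ← map_pow, hu, AlgEquiv.commutes, div_self]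
      rw [← hu]
      exact pow_ne_zero _ hu0
    obtain ⟨i, hi, hi'⟩ := hξp.eq_pow_of_pow_eq_one h1
    refine ⟨(i : ZMod n), ?_⟩
    rw [ZMod.val_natCast_of_lt hi, hi', div_mul_cancel₀ _ hu0]
  have hpow : ∀ a a' : ZMod n, ξ ^ (a + a').val = ξ ^ a.val * ξ ^ a'.val := by
    intro a a'
    rw [ZMod.val_add, ← pow_add]
    exact (pow_eq_pow_mod _ hξp.pow_eq_one).symm
  have hinj : ∀ a a' : ZMod n, ξ ^ a.val = ξ ^ a'.val → a = a' := by
    intro a a' h
    exact ZMod.val_injective n (hξp.pow_inj (ZMod.val_lt a) (ZMod.val_lt a') h)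
  have hτξ : ∀ (τ : Ω ≃ₐ[M] Ω) (k : ℕ), τ (ξ ^ k) = ξ ^ k := by
    intro τ k
    rw [hξ, ← map_pow, AlgEquiv.commutes]
  choose κ hκ using hexp
  have hadd : ∀ (u : Ω) (d : Mˣ) (hu : u ^ n = algebraMap M Ω d) (τ τ' : Ω ≃ₐ[M] Ω),
      κ u d hu (τ * τ') = κ u d hu τ + κ u d hu τ' := by
    intro u d hu τ τ'
    apply hinj
    apply mul_right_cancel₀ (hne u d hu)
    rw [← hκ u d hu, hpow, AlgEquiv.mul_apply, hκ u d hu τ', map_mul, hτξ, hκ u d hu τ]
    ring
  -- the family
  let z' : Option ι → Ω := fun j => j.elim y z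
  let c' : Option ι → Mˣ := fun j => j.elim b c
  have hz' : ∀ j, z' j ^ n = algebraMap M Ω (c' j) := by
    rintro (_ | i)
    · exact hy
    · exact hz i
  let κ' : (Ω ≃ₐ[M] Ω) → Option ι → ZMod n := fun τ j => κ (z' j) (c' j) (hz' j) τ
  have hκ' : ∀ τ j, τ (z' j) = ξ ^ (κ' τ j).val * z' j := fun τ j => hκ (z' j) (c' j) (hz' j) τ
  have hadd' : ∀ τ τ', κ' (τ * τ') = κ' τ + κ' τ' := fun τ τ' => by
    funext j
    exact hadd _ _ _ τ τ'
  have hone : κ' 1 = 0 := by
    have h := hadd' 1 1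
    rw [mul_one] at h
    simpa using h
  let P : AddSubgroup (Option ι → ZMod n) :=
    { carrier := {p | ∃ τ, κ' τ = p}
      add_mem' := by
        rintro _ _ ⟨a, rfl⟩ ⟨a', rfl⟩
        exact ⟨a * a', hadd' a a'⟩
      zero_mem' := ⟨1, hone⟩
      neg_mem' := by
        rintro _ ⟨a, rfl⟩
        refine ⟨a⁻¹, ?_⟩
        have h := hadd' a a⁻¹
        rw [mul_inv_cancel, hone] at h
        exact (neg_eq_of_add_eq_zero_right h.symm).symm }
  let e : Option ι → ZMod n := fun j => j.elim (Multiplicative.toAdd (Ψ b)) fun _ => 0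
  have he : ∀ j, e j = Multiplicative.toAdd (Ψ (c' j)) := by
    rintro (_ | i)
    · rfl
    · change (0 : ZMod n) = Multiplicative.toAdd (Ψ (c i))
      rw [hc i, toAdd_one]
  by_cases hmem : e ∈ P
  · obtain ⟨τ, hτ⟩ := hmem
    refine ⟨τ, ?_, fun i => ?_⟩
    · have h := hκ' τ none
      rw [hτ] at h
      exact h
    · have h := hκ' τ (some i)
      rw [hτ] at h
      have h2 : τ (z i) = ξ ^ (0 : ZMod n).val * z i := h
      rw [h2, ZMod.val_zero, pow_zero, one_mul]
  · exfalso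
    obtain ⟨k, hk1, hk2⟩ := exists_separating n P e hmem
    -- the invariant element
    set m : Ω := ∏ j, z' j ^ (k j).val with hm
    have hmfix : ∀ τ : Ω ≃ₐ[M] Ω, τ m = m := by
      intro τ
      rw [hm, map_prod]
      have h1 : ∀ j, τ (z' j ^ (k j).val) = ξ ^ (k j * κ' τ j).val * z' j ^ (k j).val := by
        intro j
        rw [map_pow, hκ' τ j, mul_pow, ← pow_mul, ZMod.val_mul]
        congr 1
        rw [mul_comm]
        exact pow_eq_pow_mod _ hξp.pow_eq_one
      rw [Finset.prod_congr rfl fun j _ => h1 j, Finset.prod_mul_distrib]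
      have h2 : ∀ s : Finset (Option ι), ∏ j ∈ s, ξ ^ (k j * κ' τ j).val =
          ξ ^ (∑ j ∈ s, k j * κ' τ j).val := by
        intro s
        induction s using Finset.induction_on with
        | empty => simp
        | insert a s ha ih => rw [Finset.prod_insert ha, Finset.sum_insert ha, hpow, ih]
      rw [h2 Finset.univ, hk1 _ ⟨τ, rfl⟩, ZMod.val_zero, pow_zero, one_mul]
    obtain ⟨m₀, hm₀⟩ := (InfiniteGalois.mem_range_algebraMap_iff_fixed m).2 hmfix
    have hm0 : m ≠ 0 := Finset.prod_ne_zero_iff.2 fun j _ => pow_ne_zero _ (hne _ _ (hz' j))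
    have hm₀0 : m₀ ≠ 0 := by
      rintro rfl
      exact hm0 (by rw [← hm₀, map_zero])
    have hfin : (Units.mk0 m₀ hm₀0) ^ n = ∏ j, c' j ^ (k j).val := by
      apply Units.ext
      apply (algebraMap M Ω).injective
      rw [Units.val_pow_eq_pow_val, Units.val_mk0, map_pow, hm₀, Units.coe_prod, map_prod]
      have h1 : ∀ j, algebraMap M Ω ((c' j ^ (k j).val : Mˣ) : M) = (z' j ^ (k j).val) ^ n := by
        intro j
        rw [Units.val_pow_eq_pow_val, map_pow, ← hz' j, ← pow_mul, ← pow_mul, mul_comm]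
      rw [Finset.prod_congr rfl fun j _ => h1 j, Finset.prod_pow]
    apply hk2
    have h3 := congrArg (fun u => Multiplicative.toAdd (Ψ u)) hfin
    simp only [map_pow, map_prod, toAdd_pow, toAdd_prod] at h3
    have h4 : ∑ j, k j * e j = ∑ j, (k j).val • Multiplicative.toAdd (Ψ (c' j)) := by
      refine Finset.sum_congr rfl fun j _ => ?_
      rw [he j, nsmul_eq_mul, ZMod.natCast_zmod_val]
    rw [h4, ← h3, nsmul_eq_mul, ZMod.natCast_self, zero_mul]

end Pool.Agent.H25.LS
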