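import Pool.Agent.H13.HP.HJ

/-!
# Values of a polynomial in a prescribed class, close to a root (MP_6b5a9a_nt)
-/

set_option autoImplicit false

open Polynomial

namespace Pool.Agent.H25.LS

/-- Let `f` be a polynomial with a root `x₀` of multiplicity prime to `l`, which splits over `M`.
For every character of `Mˣ` of exponent `l` with finite values and every `g` there are points `x`
arbitrarily close to `x₀` such that `f x` is in the class of `g`. -/
theorem exists_pick (M : Type*) [Field M] [Infinite M] (l : ℕ) (hl : 1 < l) (V : Type*)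
    [CommGroup V] [Finite V] (hV : ∀ a : V, a ^ l = 1) (χ : Mˣ →* V) (f : M[X]) (hf : f ≠ 0)
    (hsp : f.Splits) (x₀ : M) (hx₀ : (f.rootMultiplicity x₀).Coprime l) (g : Mˣ) {Γ₀ : Type*}
    [LinearOrderedCommGroupWithZero Γ₀] (v : Valuation M Γ₀) (bd : Γ₀) (s₀ : M) (hs₀ : s₀ ≠ 0)
    (hs₁ : v s₀ < bd) :
    ∃ (x : M) (w : Mˣ), x ≠ x₀ ∧ v (x - x₀) < bd ∧ (w : M) = f.eval x ∧ χ w = χ g := by
  classical
  set R : Multiset M := f.roots.filter (fun a => a ≠ x₀) with hR
  have hRne : ∀ a ∈ R, x₀ - a ≠ 0 := by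
    intro a ha h0
    exact (Multiset.mem_filter.1 ha).2 (sub_eq_zero.1 h0).symm
  have hlc : f.leadingCoeff ≠ 0 := leadingCoeff_ne_zero.2 hf
  have hκne : f.leadingCoeff * (R.map fun a => x₀ - a).prod ≠ 0 := by
    refine mul_ne_zero hlc ?_
    rw [Ne, Multiset.prod_eq_zero_iff, Multiset.mem_map]
    rintro ⟨a, ha, h0⟩
    exact hRne a ha h0
  set κ₀ : Mˣ := Units.mk0 _ hκne with hκ₀
  set m := f.rootMultiplicity x₀ with hm
  -- an inverse of `m` modulo `l`
  obtain ⟨m', t, hmt⟩ : ∃ m' t : ℕ, m * m' = l * t + 1 := by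
    have h1 := Nat.exists_mul_mod_eq_one_of_coprime hx₀ hl
    obtain ⟨m', _, hm'⟩ := h1
    refine ⟨m', m * m' / l, ?_⟩
    have := Nat.div_add_mod (m * m') l
    rw [hm'] at this
    exact this.symm
  set h : Mˣ := (κ₀ * g⁻¹) ^ m' with hh
  set S : Finset M := insert 0 ((R.map fun a => (x₀ - a)⁻¹).toFinset) with hS
  set S' : Finset M := S ∪ S.image (fun s => s₀⁻¹ + s) with hS'
  obtain ⟨q', hq'⟩ := Pool.Agent.H13.HP.exists_translate χ S' h
  -- the translate which is large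
  have hs₀v : v s₀ ≠ 0 := (Valuation.ne_zero_iff v).2 hs₀
  obtain ⟨q, hq, hqv⟩ : ∃ q : M, (∀ s ∈ S, ∃ u : Mˣ, (u : M) = q + s ∧ χ u = χ h) ∧
      v q⁻¹ ≤ v s₀ := by
    by_cases hlt : v q' < v s₀⁻¹
    · refine ⟨q' + s₀⁻¹, fun s hs => ?_, ?_⟩
      · obtain ⟨u, hu, hχ⟩ := hq' (s₀⁻¹ + s)
          (Finset.mem_union_right _ (Finset.mem_image_of_mem _ hs))
        exact ⟨u, by rw [hu]; ring, hχ⟩
      · rw [map_inv₀, Valuation.map_add_eq_of_lt_right v hlt, map_inv₀, inv_inv]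
    · refine ⟨q', fun s hs => hq' s (Finset.mem_union_left _ hs), ?_⟩
      have h1 : v s₀⁻¹ ≤ v q' := not_lt.1 hlt
      rw [map_inv₀] at h1 ⊢
      have h2 : 0 < (v s₀)⁻¹ := by
        rw [zero_lt_iff]; exact inv_ne_zero hs₀v
      have h3 := inv_anti₀ h2 h1
      rwa [inv_inv] at h3
  obtain ⟨u₀, hu₀, hχ₀⟩ := hq 0 (Finset.mem_insert_self _ _)
  rw [add_zero] at hu₀
  have hq0 : q ≠ 0 := by rw [← hu₀]; exact u₀.ne_zero
  -- the class of a factor
  have hfac : ∀ a ∈ R, ∃ w z : Mˣ, (w : M) = x₀ + q⁻¹ - a ∧ (z : M) = x₀ - a ∧ χ w = χ z := by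
    intro a ha
    have ha0 := hRne a ha
    obtain ⟨u, hu, hχ⟩ := hq (x₀ - a)⁻¹ (Finset.mem_insert_of_mem (Multiset.mem_toFinset.2
      (Multiset.mem_map_of_mem _ ha)))
    refine ⟨Units.mk0 (x₀ - a) ha0 * u₀⁻¹ * u, Units.mk0 (x₀ - a) ha0, ?_, rfl, ?_⟩
    · rw [Units.val_mul, Units.val_mul, Units.val_inv_eq_inv_val, hu₀, hu, Units.val_mk0]
      field_simp
      ring
    · rw [map_mul, map_mul, map_inv, hχ₀, hχ, inv_mul_cancel_right]
  -- products over submultisets of `R`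
  have hprod : ∀ T : Multiset M, T ≤ R → ∃ w z : Mˣ, (w : M) = (T.map fun a => x₀ + q⁻¹ - a).prod ∧
      (z : M) = (T.map fun a => x₀ - a).prod ∧ χ w = χ z := by
    intro T
    induction T using Multiset.induction_on with
    | empty => intro _; exact ⟨1, 1, by simp, by simp, rfl⟩
    | cons a T ih =>
      intro hT
      obtain ⟨w, z, hw, hz, hwz⟩ := ih ((Multiset.le_cons_self T a).trans hT)
      obtain ⟨w', z', hw', hz', hχ'⟩ := hfac a (Multiset.mem_of_le hT (Multiset.mem_cons_self a T))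
      refine ⟨w' * w, z' * z, ?_, ?_, ?_⟩
      · rw [Multiset.map_cons, Multiset.prod_cons, Units.val_mul, hw, hw']
      · rw [Multiset.map_cons, Multiset.prod_cons, Units.val_mul, hz, hz']
      · rw [map_mul, map_mul, hχ', hwz]
  obtain ⟨w, z, hw, hz, hwz⟩ := hprod R le_rfl
  have hrootsplit : f.roots = R + Multiset.replicate m x₀ := by
    rw [hR, hm, ← count_roots, ← Multiset.filter_eq' , add_comm]
    exact (Multiset.filter_add_not (fun a => a = x₀) f.roots).symm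
  have heval : f.eval (x₀ + q⁻¹) = f.leadingCoeff * ((R.map fun a => x₀ + q⁻¹ - a).prod * q⁻¹ ^ m) := by
    rw [hsp.eval_eq_prod_roots, hrootsplit, Multiset.map_add, Multiset.prod_add,
      Multiset.map_replicate, Multiset.prod_replicate, add_sub_cancel_left]
  refine ⟨x₀ + q⁻¹, Units.mk0 f.leadingCoeff hlc * (w * (u₀⁻¹) ^ m), ?_, ?_, ?_, ?_⟩
  · intro h0
    exact inv_ne_zero hq0 (by simpa using h0)
  · rw [add_sub_cancel_left]
    exact hqv.trans_lt hs₁
  · rw [heval, Units.val_mul, Units.val_mul, Units.val_mk0, hw, Units.val_pow_eq_pow_val,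
      Units.val_inv_eq_inv_val, hu₀]
  · have h1 : κ₀ = Units.mk0 f.leadingCoeff hlc * z := by
      apply Units.ext
      rw [hκ₀, Units.val_mk0, Units.val_mul, Units.val_mk0, hz]
    have h2 : χ (Units.mk0 f.leadingCoeff hlc * (w * (u₀⁻¹) ^ m)) = χ κ₀ * (χ h)⁻¹ ^ m := by
      rw [h1, map_mul, map_mul, map_mul, map_pow, map_inv, hwz, hχ₀, mul_assoc]
    rw [h2, hh, map_pow, inv_pow, ← pow_mul, mul_comm m' m, hmt, pow_succ, pow_mul, hV, one_pow,
      one_mul, map_mul, map_inv, mul_inv, inv_inv, mul_inv_cancel_left]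

end Pool.Agent.H25.LS
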