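import Pool.Agent.H25.LS.Dvr

/-!
# Places of degree one over a principal ideal domain (MP_6b5a9a_nt)
-/

set_option autoImplicit false

open Polynomial
open scoped WithZero

namespace Pool.Agent.H25.LS

section

variable (B M : Type*) [CommRing B] [IsDomain B] [IsPrincipalIdealRing B] [Field M] [Algebra B M]

/-- the data of a simple root `u` of `G` modulo `p`, where `G` is the minimal polynomial of `β` -/
theorem exists_place (hinj : Function.Injective (algebraMap B M)) (β : M) (G : B[X])
    (hβ : aeval β G = 0) (hmin : ∀ h : B[X], aeval β h = 0 → G ∣ h)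
    (hfrac : ∀ x : M, ∃ b : B, b ≠ 0 ∧ ∃ h : B[X], algebraMap B M b * x = aeval β h)
    (u p : B) (hp : Prime p) (hu1 : p ∣ G.eval u) (hu2 : ¬ p ^ 2 ∣ G.eval u)
    (hu3 : ¬ p ∣ (derivative G).eval u) :
    ∃ w : Valuation M ℤᵐ⁰, (∀ h : B[X], w (aeval β h) ≤ 1) ∧
      (∀ h : B[X], ¬ p ∣ h.eval u → w (aeval β h) = 1) ∧
      w (algebraMap B M u - β) = WithZero.exp (-1 : ℤ) := by
  classical
  have hinjA : Function.Injective (aeval β : B[X] →ₐ[B] M).range.val := Subtype.val_injective
  -- the ring `B[β]`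
  set A : Subalgebra B M := (aeval β : B[X] →ₐ[B] M).range with hA
  have hmem : ∀ h : B[X], aeval β h ∈ A := fun h => ⟨h, rfl⟩
  have hnoeth : IsNoetherianRing A :=
    isNoetherianRing_of_surjective B[X] A (aeval β : B[X] →ₐ[B] M).rangeRestrict.toRingHom
      (aeval β : B[X] →ₐ[B] M).rangeRestrict_surjective
  have hfr : IsFractionRing A M := by
    refine IsFractionRing.of_field A M fun z => ?_
    obtain ⟨b, hb, h, hz⟩ := hfrac z
    refine ⟨⟨aeval β h, hmem h⟩, ⟨algebraMap B M b, ⟨C b, by simp⟩⟩, ?_⟩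
    have hb' : algebraMap B M b ≠ 0 := fun h0 => hb (hinj (h0.trans (map_zero _).symm))
    change z = aeval β h / algebraMap B M b
    rw [eq_div_iff hb', mul_comm, hz]
  -- the residue map
  have hdvd : ∀ h : B[X], aeval β h = 0 → p ∣ h.eval u := by
    intro h hh
    obtain ⟨q, rfl⟩ := hmin h hh
    rw [eval_mul]
    exact hu1.mul_right _
  set P : Ideal A :=
    { carrier := {a | ∀ h : B[X], aeval β h = (a : M) → p ∣ h.eval u}
      add_mem' := by
        rintro a b ha hb h hh
        obtain ⟨h1, h1'⟩ := a.2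
        obtain ⟨h2, h2'⟩ := b.2
        have e1 : (aeval β) h1 = (a : M) := h1'
        have e2 : (aeval β) h2 = (b : M) := h2'
        have := hdvd (h - h1 - h2) (by rw [map_sub, map_sub, hh, e1, e2]; push_cast; ring)
        rw [eval_sub, eval_sub] at this
        have h4 := dvd_add (dvd_add this (ha h1 e1)) (hb h2 e2)
        ring_nf at h4
        exact h4
      zero_mem' := fun h hh => hdvd h hh
      smul_mem' := by
        rintro c a ha h hh
        obtain ⟨h1, h1'⟩ := a.2
        obtain ⟨h2, h2'⟩ := c.2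
        have e1 : (aeval β) h1 = (a : M) := h1'
        have e2 : (aeval β) h2 = (c : M) := h2'
        have := hdvd (h - h2 * h1) (by
          rw [map_sub, map_mul, hh, e1, e2, smul_eq_mul]; push_cast; ring)
        rw [eval_sub, eval_mul] at this
        have h4 := dvd_add this ((ha h1 e1).mul_left (h2.eval u))
        ring_nf at h4
        exact h4 } with hPdef
  have hmemP : ∀ h : B[X], (⟨aeval β h, hmem h⟩ : A) ∈ P ↔ p ∣ h.eval u := by
    intro h
    constructor
    · intro hh
      exact hh h rfl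
    · intro hh h' hh'
      have := hdvd (h' - h) (by rw [map_sub, hh']; simp)
      rw [eval_sub] at this
      have h4 := dvd_add this hh
      ring_nf at h4
      exact h4
  have hsurj : ∀ a : A, ∃ h : B[X], a = ⟨aeval β h, hmem h⟩ := by
    intro a
    obtain ⟨h, hh⟩ := a.2
    exact ⟨h, Subtype.ext hh.symm⟩
  have hPprime : P.IsPrime := by
    refine ⟨?_, ?_⟩
    · rw [Ne, Ideal.eq_top_iff_one]
      intro h1
      have : (1 : A) = ⟨aeval β (1 : B[X]), hmem 1⟩ := Subtype.ext (by simp)
      rw [this, hmemP, eval_one] at h1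
      exact hp.not_isUnit (isUnit_of_dvd_one h1)
    · intro a b hab
      obtain ⟨h1, rfl⟩ := hsurj a
      obtain ⟨h2, rfl⟩ := hsurj b
      have : (⟨aeval β h1, hmem h1⟩ * ⟨aeval β h2, hmem h2⟩ : A) =
          ⟨aeval β (h1 * h2), hmem (h1 * h2)⟩ := Subtype.ext (by simp)
      rw [this, hmemP, eval_mul] at hab
      rw [hmemP, hmemP]
      exact hp.dvd_or_dvd hab
  -- the Taylor expansion of `G`
  obtain ⟨H, hH⟩ : ∃ H : B[X], G = C (G.eval u) + (X - C u) * H := by
    have h1 : (X - C u) ∣ G - C (G.eval u) := by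
      rw [dvd_iff_isRoot]; simp
    obtain ⟨H, hH⟩ := h1
    exact ⟨H, by rw [← hH]; ring⟩
  have hHu : H.eval u = (derivative G).eval u := by
    have h1 := congrArg (fun q => (derivative q).eval u) hH
    simp only [derivative_add, derivative_C, derivative_mul, derivative_sub, derivative_X,
      eval_add, eval_mul, eval_sub, eval_X, eval_C, sub_self, zero_mul, sub_zero, one_mul,
      add_zero, zero_add] at h1
    simpa using h1.symm
  obtain ⟨b, hb⟩ := hu1
  have hpb : ¬ p ∣ b := by
    rintro ⟨c, rfl⟩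
    exact hu2 ⟨c, by rw [hb]; ring⟩
  -- `p b + (β - u) H(β) = 0`
  have hrel : algebraMap B M p * algebraMap B M b + (β - algebraMap B M u) * aeval β H = 0 := by
    have h1 := hβ
    rw [hH, hb, map_add, map_mul (aeval β) (X - C u) H, aeval_C, map_mul (algebraMap B M),
      map_sub, aeval_X, aeval_C] at h1
    exact h1
  set pA : A := ⟨algebraMap B M p, ⟨C p, by simp⟩⟩ with hpA
  have hpAe : pA = ⟨aeval β (C p), hmem (C p)⟩ := Subtype.ext (by simp [hpA])
  have hpmem : pA ∈ P := by
    rw [hpAe, hmemP, eval_C]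
  have hp0 : pA ≠ 0 := by
    intro h
    have h1 : algebraMap B M p = 0 := congrArg Subtype.val h
    exact hp.ne_zero (hinj (h1.trans (map_zero _).symm))
  have hloc : ∀ a ∈ P, ∃ s : A, s ∉ P ∧ pA ∣ s * a := by
    intro a ha
    obtain ⟨h, rfl⟩ := hsurj a
    rw [hmemP] at ha
    obtain ⟨c, hc⟩ := ha
    obtain ⟨h', hh'⟩ : (X - C u) ∣ h - C (h.eval u) := by
      rw [dvd_iff_isRoot]; simp
    refine ⟨⟨aeval β H, hmem H⟩, ?_, ?_⟩
    · rw [hmemP, hHu]
      exact hu3
    · refine ⟨⟨aeval β (C c * H - C b * h'), hmem _⟩, ?_⟩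
      apply Subtype.ext
      change aeval β H * aeval β h = algebraMap B M p * aeval β (C c * H - C b * h')
      have e1 : aeval β h = algebraMap B M p * algebraMap B M c +
          (β - algebraMap B M u) * aeval β h' := by
        have h1 := congrArg (aeval β) (eq_add_of_sub_eq hh')
        rw [hc, map_add, map_mul, map_sub, aeval_X, aeval_C, aeval_C, map_mul] at h1
        rw [h1]; ring
      rw [e1, map_sub, map_mul, map_mul, aeval_C, aeval_C]
      linear_combination (aeval β h') * hrel
  obtain ⟨w, hw1, hw2, hw3⟩ := exists_valuation A M P pA hpmem hp0 hloc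
  refine ⟨w, fun h => hw2 ⟨aeval β h, hmem h⟩, fun h hh => ?_, ?_⟩
  · exact hw1 ⟨aeval β h, hmem h⟩ (by rw [hmemP]; exact hh)
  · have hwH : w (aeval β H) = 1 := hw1 ⟨aeval β H, hmem H⟩ (by rw [hmemP, hHu]; exact hu3)
    have hwb : w (algebraMap B M b) = 1 := by
      have h1 := hw1 ⟨aeval β (C b), hmem (C b)⟩ (by rw [hmemP, eval_C]; exact hpb)
      have h2 : algebraMap A M ⟨aeval β (C b), hmem (C b)⟩ = algebraMap B M b := by
        change aeval β (C b) = _
        simp
      rw [h2] at h1
      exact h1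
    have hwp : w (algebraMap B M p) = WithZero.exp (-1 : ℤ) := hw3
    have h1 : (algebraMap B M u - β) * aeval β H = algebraMap B M p * algebraMap B M b := by
      linear_combination -hrel
    have h2 := congrArg w h1
    rw [map_mul, map_mul, hwH, hwb, mul_one, mul_one, hwp] at h2
    exact h2

end

end Pool.Agent.H25.LS
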