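import Pool.Agent.H25.LS.Pick
import Pool.Agent.H25.LS.Small
import Pool.Agent.H25.LS.Char
import Pool.Agent.H25.LS.Kummer
import Pool.Agent.H25.LS.Indep

/-!
# Points of a cyclic cover of the line which are independent of their conjugates (MP_6b5a9a_nt)
-/

set_option autoImplicit false

open Polynomial IntermediateField

namespace Pool.Agent.H25.LS

/-- The point: `x` is in `M` and close to `x₀`, `y` is fixed by the elements of `Γ` which are
trivial on `M`, and some `τ` over `M` multiplies `y` by `ζ` and fixes the conjugates of `y` by the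
other elements of `Γ`. -/
theorem exists_point (F Ω : Type*) [Field F] [Infinite F]
    (hfg : ∃ S : Finset F, Subfield.closure (S : Set F) = ⊤) [Field Ω] [Algebra F Ω]
    [IsSepClosed Ω] [IsGalois F Ω] (l : ℕ) (hl : 1 < l) (hl0 : (l : Ω) ≠ 0)
    (M : IntermediateField F Ω) [FiniteDimensional F M] [IsGalois F M] (ζ : M)
    (hζ : IsPrimitiveRoot ζ l) (Γ : Subgroup (Ω ≃ₐ[F] Ω)) (hΓ : Γ.FG) (f : M[X]) (hf : f ≠ 0)
    (hsp : f.Splits) (x₀ : M) (hx₀ : (f.rootMultiplicity x₀).Coprime l) {Γ₀ : Type*}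
    [LinearOrderedCommGroupWithZero Γ₀] (v : Valuation Ω Γ₀) (hv : ∃ t : Ω, t ≠ 0 ∧ v t < 1)
    (c : Ω) (hc : c ≠ 0) :
    ∃ (x : M) (y : Ω) (τ : Ω ≃ₐ[M] Ω), x ≠ x₀ ∧ v ((x : Ω) - x₀) < v c ∧
      y ^ l = algebraMap M Ω (f.eval x) ∧
      (∀ γ ∈ Γ, (∀ m : M, γ m = m) → γ y = y) ∧ τ y = ζ * y ∧
      ∀ γ ∈ Γ, (∃ m : M, γ m ≠ m) → τ (γ y) = γ y := by
  classical
  have : NeZero (l : Ω) := ⟨hl0⟩
  have : NeZero l := ⟨by omega⟩
  have : Fact (1 < l) := ⟨hl⟩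
  have hMinf : Infinite M := Infinite.of_injective _ (algebraMap F M).injective
  -- the restriction to `M`
  let res : (Ω ≃ₐ[F] Ω) →* (M ≃ₐ[F] M) := AlgEquiv.restrictNormalHom M
  have hres : ∀ (γ : Ω ≃ₐ[F] Ω) (m : M), ((res γ m : M) : Ω) = γ m := fun γ m =>
    AlgEquiv.restrictNormalHom_apply M γ m
  have hres1 : ∀ γ : Ω ≃ₐ[F] Ω, res γ = 1 ↔ ∀ m : M, γ m = m := by
    intro γ
    constructor
    · intro h m
      rw [← hres, h]; rfl
    · intro h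
      ext m
      rw [hres, h]; rfl
  set K : Subgroup Γ := (res.comp Γ.subtype).ker with hK
  have hKmem : ∀ γ : Γ, γ ∈ K ↔ ∀ m : M, (γ : Ω ≃ₐ[F] Ω) m = m := by
    intro γ
    rw [hK, MonoidHom.mem_ker]
    exact hres1 γ
  have hKfi : K.FiniteIndex := by
    have : Finite (Γ ⧸ K) :=
      Finite.of_equiv _ (QuotientGroup.quotientKerEquivRange (res.comp Γ.subtype)).symm.toEquiv
    exact Subgroup.finiteIndex_of_finite_quotient
  have hΓfg : Group.FG Γ := (Group.fg_iff_subgroup_fg Γ).2 hΓ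
  have hKfg : Group.FG K := Subgroup.fg_of_index_ne_zero _
  obtain ⟨S, hS⟩ := (Group.fg_iff_subgroup_fg K).1 hKfg
  have hSK : ∀ s ∈ S, ∀ m : M, (s : Ω ≃ₐ[F] Ω) m = m := by
    intro s hs m
    have h1 : s ∈ K := by rw [← hS]; exact Subgroup.subset_closure hs
    exact (hKmem s).1 h1 m
  -- the characters
  have hch : ∀ s : S, ∃ ρ : Mˣ →* Multiplicative (ZMod l), ∀ d : Mˣ, ρ d = 1 → ∀ u : Ω,
      u ^ l = algebraMap M Ω d → ((s : Γ) : Ω ≃ₐ[F] Ω) u = u := by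
    intro s
    exact exists_char M Ω l ζ hζ hl0 (IntermediateField.fixingSubgroupEquiv M
      ⟨((s : Γ) : Ω ≃ₐ[F] Ω), fun m => hSK s s.2 m⟩)
  choose ρ' hρ' using hch
  let ρ : Mˣ →* (S → Multiplicative (ZMod l)) := MonoidHom.pi ρ'
  have hroot : ∀ (d : Mˣ), ρ d = 1 → ∀ u : Ω, u ^ l = algebraMap M Ω d →
      ∀ γ ∈ Γ, (∀ m : M, γ m = m) → γ u = u := by
    intro d hd u hu γ hγ hγM
    have h1 : (⟨γ, hγ⟩ : Γ) ∈ K := (hKmem _).2 hγM
    have h2 : K ≤ (MulAction.stabilizer (Ω ≃ₐ[F] Ω) u).comap Γ.subtype := by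
      rw [← hS, Subgroup.closure_le]
      intro s hs
      have h3 : ρ' ⟨s, hs⟩ d = 1 := congrFun hd ⟨s, hs⟩
      exact hρ' ⟨s, hs⟩ d h3 u hu
    exact h2 h1
  have hρfi : ρ.ker.FiniteIndex := by
    have : Finite (Mˣ ⧸ ρ.ker) :=
      Finite.of_equiv _ (QuotientGroup.quotientKerEquivRange ρ).symm.toEquiv
    exact Subgroup.finiteIndex_of_finite_quotient
  obtain ⟨g, hg, Ψ, hΨg, hΨδ⟩ := exists_indep F M (hasPlaces F M hfg) l ρ.ker
  have hZ : ∀ a : Multiplicative (ZMod l), a ^ l = 1 := by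
    intro a
    apply Multiplicative.toAdd.injective
    rw [toAdd_pow, toAdd_one, nsmul_eq_mul, ZMod.natCast_self, zero_mul]
  -- the total character
  let χ : Mˣ →* (S → Multiplicative (ZMod l)) × ((M ≃ₐ[F] M) → Multiplicative (ZMod l)) :=
    MonoidHom.prod ρ (MonoidHom.pi fun δ : M ≃ₐ[F] M => Ψ.comp (Units.map (δ : M →* M)))
  obtain ⟨s, hs0, hs⟩ := exists_small F Ω v hv c hc
  obtain ⟨x, w, hxx₀, hxv, hw, hχ⟩ := exists_pick M l hl _ (fun a => Prod.ext (_root_.funext fun i => hZ _)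
    (_root_.funext fun i => hZ _)) χ f hf hsp x₀ hx₀ g (v.comap (algebraMap M Ω)) (v c)
    (algebraMap F M s) ((_root_.map_ne_zero _).2 hs0) hs
  have hρw : ρ w = 1 := (congrArg Prod.fst hχ).trans hg
  have hΨw : ∀ δ : M ≃ₐ[F] M, Ψ (Units.map (δ : M →* M) w) = Ψ (Units.map (δ : M →* M) g) :=
    fun δ => congrFun (congrArg Prod.snd hχ) δ
  obtain ⟨y, hy⟩ := IsSepClosed.exists_pow_nat_eq (algebraMap M Ω w) l
  -- the conjugates
  let ι : Type _ := {δ : M ≃ₐ[F] M // δ ≠ 1 ∧ ∃ γ ∈ Γ, res γ = δ}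
  choose lift hlift hlift' using fun i : ι => i.2.2
  obtain ⟨τ, hτ1, hτ2⟩ := exists_kummer M Ω l ζ hζ (ι := ι) y w hy (fun i => lift i y)
    (fun i => Units.map ((i : M ≃ₐ[F] M) : M →* M) w) (fun i => by
      rw [← map_pow, hy]
      change lift i ((w : M) : Ω) = (((i : M ≃ₐ[F] M) (w : M) : M) : Ω)
      rw [← hlift' i, hres]) Ψ (fun i => by rw [hΨw, hΨδ _ i.2.1])
  have hΨ1 : Ψ w = Multiplicative.ofAdd 1 := by
    have h1 := hΨw 1
    have h2 : ∀ a : Mˣ, Units.map ((1 : M ≃ₐ[F] M) : M →* M) a = a := fun a => Units.ext rfl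
    rw [h2, h2] at h1
    rw [h1, hΨg]
  rw [hΨ1, toAdd_ofAdd, ZMod.val_one, pow_one] at hτ1
  refine ⟨x, y, τ, hxx₀, hxv, by rw [hy, hw], hroot w hρw y hy, hτ1, ?_⟩
  rintro γ hγ ⟨m, hm⟩
  have hne : res γ ≠ 1 := fun h => hm ((hres1 γ).1 h m)
  set i : ι := ⟨res γ, hne, γ, hγ, rfl⟩ with hi
  have h1 : (lift i)⁻¹ * γ ∈ Γ := Γ.mul_mem (Γ.inv_mem (hlift i)) hγ
  have h2 : ∀ m : M, ((lift i)⁻¹ * γ) m = m := by
    rw [← hres1, map_mul, map_inv, hlift' i]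
    change (res γ)⁻¹ * res γ = 1
    exact inv_mul_cancel _
  have h3 : ((lift i)⁻¹ * γ) y = y := hroot w hρw y hy _ h1 h2
  have h4 : γ y = lift i y := by
    have h5 : lift i (((lift i)⁻¹ * γ) y) = γ y := by
      rw [← AlgEquiv.mul_apply, mul_inv_cancel_left]
    rw [← h5, h3]
  rw [h4]
  exact hτ2 i

end Pool.Agent.H25.LS
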