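import Mathlib

/-!
# Separation of a vector from a subgroup by a linear form modulo `n` (MP_6b5a9a_nt)
-/

set_option autoImplicit false

namespace Pool.Agent.H25.LS

/-- an element outside of a subgroup of `(ZMod n) ^ J` is separated from it by a linear form -/
theorem exists_separating (n : ℕ) [NeZero n] {J : Type*} [Fintype J]
    (P : AddSubgroup (J → ZMod n)) (e : J → ZMod n) (he : e ∉ P) :
    ∃ k : J → ZMod n, (∀ v ∈ P, ∑ j, k j * v j = 0) ∧ ∑ j, k j * e j ≠ 0 := by
  classical
  let Q := (J → ZMod n) ⧸ P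
  have hQfin : Finite (Multiplicative Q) := inferInstanceAs (Finite Q)
  have hne : (Multiplicative.ofAdd (QuotientAddGroup.mk e : Q)) ≠ 1 := by
    intro h
    apply he
    have h1 : (QuotientAddGroup.mk e : Q) = 0 := Multiplicative.ofAdd.injective h
    exact (QuotientAddGroup.eq_zero_iff e).1 h1
  have hexp : NeZero (Monoid.exponent (Multiplicative Q)) :=
    ⟨Monoid.exponent_ne_zero_of_finite⟩
  obtain ⟨φ, hφ⟩ := CommGroup.exists_apply_ne_one_of_hasEnoughRootsOfUnity (Multiplicative Q) ℂ hne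
  let Φ : (J → ZMod n) → ℂ := fun v => (φ (Multiplicative.ofAdd (QuotientAddGroup.mk v : Q)) : ℂ)
  have hadd : ∀ v w, Φ (v + w) = Φ v * Φ w := by
    intro v w
    change ((φ (Multiplicative.ofAdd (QuotientAddGroup.mk (v + w) : Q)) : ℂˣ) : ℂ) = _
    rw [QuotientAddGroup.mk_add, ofAdd_add, map_mul, Units.val_mul]
  have hzero : Φ 0 = 1 := by
    change ((φ (Multiplicative.ofAdd (QuotientAddGroup.mk (0 : J → ZMod n) : Q)) : ℂˣ) : ℂ) = 1
    rw [QuotientAddGroup.mk_zero, ofAdd_zero, map_one, Units.val_one]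
  have hnsmul : ∀ (m : ℕ) v, Φ (m • v) = Φ v ^ m := by
    intro m v
    induction m with
    | zero => rw [zero_smul, hzero, pow_zero]
    | succ m ih => rw [succ_nsmul, hadd, ih, pow_succ]
  have hpow : ∀ v, Φ v ^ n = 1 := by
    intro v
    rw [← hnsmul]
    have : n • v = 0 := by
      funext j
      simp
    rw [this, hzero]
  set ω : ℂ := Complex.exp (2 * Real.pi * Complex.I / n) with hω
  have hωp : IsPrimitiveRoot ω n := Complex.isPrimitiveRoot_exp n (NeZero.ne n)
  have hex : ∀ j : J, ∃ k : ℕ, ω ^ k = Φ (Pi.single j 1) := fun j => by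
    obtain ⟨k, _, hk⟩ := hωp.eq_pow_of_pow_eq_one (hpow (Pi.single j 1))
    exact ⟨k, hk⟩
  choose k hk using hex
  have hval : ∀ v, Φ v = ω ^ (∑ j, k j * (v j).val) := by
    intro v
    have h1 : v = ∑ j, (v j).val • (Pi.single j (1 : ZMod n) : J → ZMod n) := by
      funext i
      rw [Finset.sum_apply, Finset.sum_eq_single i]
      · simp
      · intro j _ hj
        simp [hj.symm]
      · intro h; exact absurd (Finset.mem_univ i) h
    have h2 : ∀ s : Finset J, Φ (∑ j ∈ s, (v j).val • (Pi.single j (1 : ZMod n) : J → ZMod n)) =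
        ω ^ (∑ j ∈ s, k j * (v j).val) := by
      intro s
      induction s using Finset.induction_on with
      | empty => rw [Finset.sum_empty, Finset.sum_empty, hzero, pow_zero]
      | insert a s ha ih =>
        rw [Finset.sum_insert ha, Finset.sum_insert ha, hadd, ih, hnsmul, ← hk, ← pow_mul,
          ← pow_add]
    conv_lhs => rw [h1]
    exact h2 Finset.univ
  have hiff : ∀ v, Φ v = 1 ↔ ∑ j, (k j : ZMod n) * v j = 0 := by
    intro v
    rw [hval, hωp.pow_eq_one_iff_dvd, ← ZMod.natCast_eq_zero_iff, Nat.cast_sum]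
    have : ∀ j, ((k j * (v j).val : ℕ) : ZMod n) = (k j : ZMod n) * v j := by
      intro j
      rw [Nat.cast_mul, ZMod.natCast_zmod_val]
    rw [Finset.sum_congr rfl fun j _ => this j]
  refine ⟨fun j => (k j : ZMod n), fun v hv => ?_, fun h => ?_⟩
  · rw [← hiff]
    change ((φ (Multiplicative.ofAdd (QuotientAddGroup.mk v : Q)) : ℂˣ) : ℂ) = 1
    rw [(QuotientAddGroup.eq_zero_iff v).2 hv, ofAdd_zero, map_one, Units.val_one]
  · apply hφ
    apply Units.ext
    exact (hiff e).2 h

end Pool.Agent.H25.LS
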